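import Pool.Agent.H94.T1.S6
import Pool.Agent.H94.HYP.DenF

/-!
# T1, row COSK: one coset
-/

set_option autoImplicit false

namespace Pool.T1.COSKaux

open Polynomial Matrix Pool.HYP Pool.TOW Pool.AVS IsDedekindDomain

section LmFacts

variable {R : Type} [CommRing R] [IsDomain R] {K : Type} [Field K] [Algebra R K]
  {O : ValuationSubring K} {π : K}

theorem Lm_mono (H : GR R O π) {m n : ℤ} (hmn : m ≤ n) {a : R} (ha : a ∈ Lm R O π m) :
    a ∈ Lm R O π n := by
  obtain ⟨k, rfl⟩ := Int.le.dest hmn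
  have h1 : algebraMap R K a * π ^ m ∈ O := ha
  change algebraMap R K a * π ^ (m + k) ∈ O
  rw [zpow_add₀ H.pi_ne, ← mul_assoc, zpow_natCast]
  exact O.mul_mem _ _ h1 (O.pow_mem H.pi_mem _)

theorem Lm_zero {m : ℤ} : (0 : R) ∈ Lm R O π m := by
  change algebraMap R K 0 * π ^ m ∈ O
  rw [map_zero, zero_mul]
  exact O.zero_mem

theorem Lm_add {m : ℤ} {a b : R} (ha : a ∈ Lm R O π m) (hb : b ∈ Lm R O π m) :
    a + b ∈ Lm R O π m := by
  have h1 : algebraMap R K a * π ^ m ∈ O := ha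
  have h2 : algebraMap R K b * π ^ m ∈ O := hb
  change algebraMap R K (a + b) * π ^ m ∈ O
  rw [map_add, add_mul]
  exact O.add_mem _ _ h1 h2

theorem Lm_mul (H : GR R O π) {m n : ℤ} {a b : R} (ha : a ∈ Lm R O π m) (hb : b ∈ Lm R O π n) :
    a * b ∈ Lm R O π (m + n) := by
  have h1 : algebraMap R K a * π ^ m ∈ O := ha
  have h2 : algebraMap R K b * π ^ n ∈ O := hb
  change algebraMap R K (a * b) * π ^ (m + n) ∈ O
  rw [map_mul, zpow_add₀ H.pi_ne, mul_mul_mul_comm]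
  exact O.mul_mem _ _ h1 h2

theorem Lm_one : (1 : R) ∈ Lm R O π 0 := by
  change algebraMap R K 1 * π ^ (0 : ℤ) ∈ O
  rw [map_one, zpow_zero, one_mul]
  exact O.one_mem

theorem Lm_pow (H : GR R O π) {m : ℤ} {a : R} (ha : a ∈ Lm R O π m) (k : ℕ) :
    a ^ k ∈ Lm R O π (k * m) := by
  induction k with
  | zero =>
    rw [pow_zero]
    simpa using (Lm_one : (1 : R) ∈ Lm R O π 0)
  | succ k ih =>
    rw [pow_succ]
    have := Lm_mul H ih ha
    have e : (k : ℤ) * m + m = ((k + 1 : ℕ) : ℤ) * m := by push_cast; ring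
    rwa [e] at this

theorem Lm_nat (k : ℕ) : (k : R) ∈ Lm R O π 0 := by
  induction k with
  | zero => rw [Nat.cast_zero]; exact Lm_zero
  | succ k ih =>
    rw [Nat.cast_succ]
    exact Lm_add ih Lm_one

theorem fam_coeff (H : GR R O π) {g : ℕ} {D : Dat R O} {h : ℕ} {f : R[X]} (hf : f ∈ Fam π g D h)
    (j : ℕ) : f.coeff j ∈ Lm R O π (((2 * g + 1) * h : ℕ) : ℤ) := by
  obtain ⟨⟨hm, hn, hc⟩, -⟩ := hf
  by_cases hj : j ≤ 2 * g + 1
  · have h1 := hc (2 * g + 1 - j) (by omega)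
    have e : 2 * g + 1 - (2 * g + 1 - j) = j := by omega
    rw [e] at h1
    refine Lm_mono H ?_ h1
    exact_mod_cast Nat.mul_le_mul_right h (by omega)
  · rw [coeff_eq_zero_of_natDegree_lt (by omega)]
    exact Lm_zero

end LmFacts

section Om

variable {R : Type} [CommRing R] [IsDedekindDomain R]

theorem exOm (P : HeightOneSpectrum R) : ∃ (Ω : Type) (_ : Field Ω) (_ : IsAlgClosed Ω)
    (φ : R →+* Ω), RingHom.ker φ = P.asIdeal := by
  haveI := P.isMaximal
  letI := Ideal.Quotient.field P.asIdeal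
  refine ⟨AlgebraicClosure (R ⧸ P.asIdeal), inferInstance, inferInstance,
    (algebraMap (R ⧸ P.asIdeal) (AlgebraicClosure (R ⧸ P.asIdeal))).comp
      (Ideal.Quotient.mk P.asIdeal), ?_⟩
  ext a
  rw [RingHom.mem_ker, RingHom.comp_apply, map_eq_zero_iff _ (RingHom.injective _),
    Ideal.Quotient.eq_zero_iff_mem]

end Om

section Main

variable {R : Type} [CommRing R] [IsDedekindDomain R] {K : Type} [Field K] [Algebra R K]
  [IsFractionRing R K] {O : ValuationSubring K} {π : K}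

theorem der_w {p : ℕ} [CharP R p] (Δ : Derivation ℤ R R) (M t u v : R) (hp : p.Prime) :
    Δ (wK p M t u v) = M ^ p * v ^ p * Δ t := by
  have hp0 : ∀ a : R, Δ (a ^ p) = 0 := by
    intro a
    rw [Derivation.leibniz_pow, nsmul_eq_mul, CharP.cast_eq_zero, zero_mul]
  unfold wK
  rw [Derivation.leibniz, map_add, Derivation.leibniz, hp0, hp0, hp0]
  simp only [smul_eq_mul, mul_zero, zero_add, add_zero]
  ring

/-- the bad `u` for one prime. -/
theorem u_prime (H : GR R O π) (hCL : CLNKStmt) (hSN : SNPKStmt) (hU : CntU R O π)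
    (hD : CntD R O π) (hDD : DDKStmt) {p : ℕ} (hp : p.Prime) [CharP R p] (Δ : Derivation ℤ R R)
    {M t v : R} {f : R[X]} {P : HeightOneSpectrum R} {m l k : ℕ} (hP : qq O ^ m < Nm P)
    (hml : m ≤ l) (hM : M ∉ P.asIdeal) (hk1 : (derivative f).natDegree ≤ k)
    (hk2 : (dD Δ f).natDegree ≤ k)
    (h0 : ¬ ((∀ j, (derivative f).coeff j ∈ P.asIdeal) ∧
      ∀ j, (dD Δ f + C (M ^ p * v ^ p * Δ t)).coeff j ∈ P.asIdeal)) :
    {u ∈ Lm R O π (l : ℤ) | Sing P.asIdeal (f + C (wK p M t u v))}.ncard *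
      (Lm R O π (m : ℤ)).ncard ≤ k * (Lm R O π (l : ℤ)).ncard := by
  classical
  obtain ⟨Ω, _, _, φ, hφ⟩ := exOm P
  have hφ0 : ∀ a, φ a = 0 ↔ a ∈ P.asIdeal := fun a => by rw [← hφ, RingHom.mem_ker]
  haveI : ExpChar R p := ExpChar.prime hp
  haveI : CharP Ω p := by
    haveI := Fact.mk hp
    have h1 : (p : Ω) = 0 := by
      have h2 : φ (p : R) = 0 := by rw [CharP.cast_eq_zero, map_zero]
      rwa [map_natCast] at h2
    obtain ⟨q, hq⟩ := CharP.exists Ω
    have h2 : q ∣ p := (CharP.cast_eq_zero_iff Ω q p).1 h1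
    rcases (Nat.dvd_prime hp).1 h2 with h3 | h3
    · subst h3
      exact absurd (CharP.cast_eq_zero Ω 1) (by rw [Nat.cast_one]; exact one_ne_zero)
    · exact h3 ▸ hq
  set G := (derivative f).map φ with hG
  set Hh := (dD Δ f + C (M ^ p * v ^ p * Δ t)).map φ with hH
  have hGd : G.natDegree ≤ k := (natDegree_map_le).trans hk1
  have hHd : Hh.natDegree ≤ k := by
    refine (natDegree_map_le).trans ((natDegree_add_le _ _).trans (max_le hk2 ?_))
    rw [natDegree_C]; exact Nat.zero_le _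
  have hΞ : ∃ Ξ : Finset Ω, Ξ.card ≤ k ∧ ∀ ξ, G.eval ξ = 0 → Hh.eval ξ = 0 → ξ ∈ Ξ := by
    by_cases h1 : G = 0
    · have h2 : Hh ≠ 0 := by
        intro h2
        apply h0
        constructor
        · intro j
          have := congrArg (fun r => coeff r j) h1
          simp only [hG, coeff_map, coeff_zero] at this
          exact (hφ0 _).1 this
        · intro j
          have := congrArg (fun r => coeff r j) h2
          simp only [hH, coeff_map, coeff_zero] at this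
          exact (hφ0 _).1 this
      exact ⟨Hh.roots.toFinset, (Multiset.toFinset_card_le _).trans ((card_roots' _).trans hHd),
        fun ξ _ h3 => Multiset.mem_toFinset.2 ((mem_roots h2).2 h3)⟩
    · exact ⟨G.roots.toFinset, (Multiset.toFinset_card_le _).trans ((card_roots' _).trans hGd),
        fun ξ h3 _ => Multiset.mem_toFinset.2 ((mem_roots h1).2 h3)⟩
  obtain ⟨Ξ, hΞc, hΞm⟩ := hΞ
  have hLf := (hU (l : ℤ)).1
  let Bs : Ω → Set R := fun ξ =>
    {u ∈ Lm R O π (l : ℤ) | ((f + C (wK p M t u v)).map φ).eval ξ = 0}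
  have hBfin : ∀ ξ, (Bs ξ).Finite := fun ξ => hLf.subset (Set.sep_subset _ _)
  have hsub : {u ∈ Lm R O π (l : ℤ) | Sing P.asIdeal (f + C (wK p M t u v))} ⊆
      ⋃ ξ ∈ Ξ, Bs ξ := by
    rintro u ⟨hu, hs⟩
    obtain ⟨ξ, h1, h2, h3⟩ := hSN R Δ Ω φ P.asIdeal hφ _ hs
    obtain ⟨-, hadd, -, hC⟩ := hDD R Δ
    rw [hadd, hC, der_w Δ M t u v hp] at h3
    rw [derivative_add, derivative_C, add_zero] at h2
    simp only [Set.mem_iUnion]
    exact ⟨ξ, hΞm ξ h2 h3, hu, h1⟩
  obtain ⟨h1, h2⟩ := Pool.HYP.Den.ncard_bU Ξ Bs fun ξ _ => hBfin ξ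
  have h3 : ∀ ξ ∈ Ξ, (Bs ξ).ncard * (Lm R O π (m : ℤ)).ncard ≤ (Lm R O π (l : ℤ)).ncard := by
    intro ξ _
    refine hCL R K O π H hU hD P m l _ hP hml (fun u hu => hu.1) ?_
    intro u hu u' hu'
    have h4 := hu.2
    have h5 := hu'.2
    have h6 : φ (M ^ p * (u - u') ^ p) = 0 := by
      have h7 : M ^ p * (u - u') ^ p = wK p M t u v - wK p M t u' v := by
        haveI := Fact.mk hp
        unfold wK
        rw [sub_pow_char]
        ring
      rw [Polynomial.map_add, eval_add, Polynomial.map_C, eval_C] at h4 h5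
      rw [h7, map_sub]
      linear_combination h4 - h5
    rw [map_mul, map_pow, map_pow] at h6
    rcases mul_eq_zero.1 h6 with h7 | h7
    · exact absurd ((hφ0 _).1 (pow_eq_zero_iff hp.ne_zero |>.1 h7)) hM
    · exact (hφ0 _).1 (pow_eq_zero_iff hp.ne_zero |>.1 h7)
  calc {u ∈ Lm R O π (l : ℤ) | Sing P.asIdeal (f + C (wK p M t u v))}.ncard *
      (Lm R O π (m : ℤ)).ncard
      ≤ (∑ ξ ∈ Ξ, (Bs ξ).ncard) * (Lm R O π (m : ℤ)).ncard :=
        Nat.mul_le_mul_right _ ((Set.ncard_le_ncard hsub h2).trans h1)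
    _ = ∑ ξ ∈ Ξ, (Bs ξ).ncard * (Lm R O π (m : ℤ)).ncard := Finset.sum_mul _ _ _
    _ ≤ ∑ _ξ ∈ Ξ, (Lm R O π (l : ℤ)).ncard := Finset.sum_le_sum h3
    _ = Ξ.card * (Lm R O π (l : ℤ)).ncard := by rw [Finset.sum_const, smul_eq_mul]
    _ ≤ k * (Lm R O π (l : ℤ)).ncard := Nat.mul_le_mul_right _ hΞc

/-- the `v` for which both derivatives vanish modulo a large prime. -/
def VD (O : ValuationSubring K) (π : K) (p : ℕ) (Δ : Derivation ℤ R R) (M t : R) (f : R[X])
    (m l : ℕ) : Set R :=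
  {v ∈ Lm R O π (l : ℤ) | ∃ P : HeightOneSpectrum R, qq O ^ m < Nm P ∧
    (∀ j, (derivative f).coeff j ∈ P.asIdeal) ∧
    ∀ j, (dD Δ f + C (M ^ p * v ^ p * Δ t)).coeff j ∈ P.asIdeal}

theorem VD_card (H : GR R O π) (hCL : CLNKStmt) (hPR : PRNKStmt) (hU : CntU R O π)
    (hD : CntD R O π) {p : ℕ} (hp : p.Prime) [CharP R p] (Δ : Derivation ℤ R R)
    {M t : R} {f : R[X]} {m l B : ℕ} (hm1 : 1 ≤ m) (hml : m ≤ l)
    (hM : ∀ P : HeightOneSpectrum R, qq O ^ m < Nm P → M ∉ P.asIdeal ∧ Δ t ∉ P.asIdeal)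
    (hf0 : derivative f ≠ 0) (hfB : ∀ j, (derivative f).coeff j ∈ Lm R O π (B : ℤ)) :
    (VD O π p Δ M t f m l).ncard * (Lm R O π (m : ℤ)).ncard ≤
      B * (Lm R O π (l : ℤ)).ncard := by
  classical
  obtain ⟨j, hj⟩ : ∃ j, (derivative f).coeff j ≠ 0 := by
    by_contra hh
    push Not at hh
    exact hf0 (Polynomial.ext (fun j => by rw [hh j, coeff_zero]))
  obtain ⟨hfin, hcard⟩ := hPR R K O π H hD _ B m hj (hfB j)
  have hc2 : hfin.toFinset.card ≤ B := by
    rw [Set.ncard_eq_toFinset_card _ hfin] at hcard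
    exact (Nat.le_mul_of_pos_right _ hm1).trans hcard
  have hLf := (hU (l : ℤ)).1
  let Bs : HeightOneSpectrum R → Set R := fun P => {v ∈ Lm R O π (l : ℤ) |
    ∀ j, (dD Δ f + C (M ^ p * v ^ p * Δ t)).coeff j ∈ P.asIdeal}
  have hBfin : ∀ P, (Bs P).Finite := fun P => hLf.subset (Set.sep_subset _ _)
  have hsub : VD O π p Δ M t f m l ⊆ ⋃ P ∈ hfin.toFinset, Bs P := by
    rintro v ⟨hv, P, h1, h2, h3⟩
    simp only [Set.mem_iUnion]
    exact ⟨P, hfin.mem_toFinset.2 ⟨h2 j, h1⟩, hv, h3⟩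
  obtain ⟨h1, h2⟩ := Pool.HYP.Den.ncard_bU hfin.toFinset Bs fun P _ => hBfin P
  have h3 : ∀ P ∈ hfin.toFinset, (Bs P).ncard * (Lm R O π (m : ℤ)).ncard ≤
      (Lm R O π (l : ℤ)).ncard := by
    intro P hP
    have hP' := (hfin.mem_toFinset.1 hP).2
    obtain ⟨hMP, hTP⟩ := hM P hP'
    refine hCL R K O π H hU hD P m l _ hP' hml (fun u hu => hu.1) ?_
    intro v hv v' hv'
    have h4 := hv.2 0
    have h5 := hv'.2 0
    rw [coeff_add, coeff_C_zero] at h4 h5
    have h6 : M ^ p * (v - v') ^ p * Δ t ∈ P.asIdeal := by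
      have h7 := P.asIdeal.sub_mem h4 h5
      have h8 : (dD Δ f).coeff 0 + M ^ p * v ^ p * Δ t - ((dD Δ f).coeff 0 + M ^ p * v' ^ p * Δ t)
          = M ^ p * (v - v') ^ p * Δ t := by
        haveI := Fact.mk hp
        rw [sub_pow_char]
        ring
      rwa [h8] at h7
    haveI := P.isPrime
    rcases P.isPrime.mem_or_mem h6 with h7 | h7
    · rcases P.isPrime.mem_or_mem h7 with h8 | h8
      · exact absurd (P.isPrime.mem_of_pow_mem _ h8) hMP
      · exact P.isPrime.mem_of_pow_mem _ h8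
    · exact absurd h7 hTP
  calc (VD O π p Δ M t f m l).ncard * (Lm R O π (m : ℤ)).ncard
      ≤ (∑ P ∈ hfin.toFinset, (Bs P).ncard) * (Lm R O π (m : ℤ)).ncard :=
        Nat.mul_le_mul_right _ ((Set.ncard_le_ncard hsub h2).trans h1)
    _ = ∑ P ∈ hfin.toFinset, (Bs P).ncard * (Lm R O π (m : ℤ)).ncard := Finset.sum_mul _ _ _
    _ ≤ ∑ _P ∈ hfin.toFinset, (Lm R O π (l : ℤ)).ncard := Finset.sum_le_sum h3
    _ = hfin.toFinset.card * (Lm R O π (l : ℤ)).ncard := by rw [Finset.sum_const, smul_eq_mul]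
    _ ≤ B * (Lm R O π (l : ℤ)).ncard := Nat.mul_le_mul_right _ hc2

/-- for one good `v`. -/
theorem good_v (H : GR R O π) (hCL : CLNKStmt) (hPR : PRNKStmt) (hSN : SNPKStmt)
    (hRS : RSLKStmt) (hU : CntU R O π) (hD : CntD R O π) (hDD : DDKStmt) {p : ℕ} (hp : p.Prime)
    [CharP R p] (Δ : Derivation ℤ R R) {M t v : R} {f : R[X]} {m l k B : ℕ} (hm1 : 1 ≤ m)
    (hml : m ≤ l)
    (hM : ∀ P : HeightOneSpectrum R, qq O ^ m < Nm P → M ∉ P.asIdeal ∧ Δ t ∉ P.asIdeal)
    (hk1 : (derivative f).natDegree ≤ k) (hk2 : (dD Δ f).natDegree ≤ k)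
    (hfB : ∀ j, (derivative f).coeff j ∈ Lm R O π (B : ℤ))
    (hDB : ∀ j, (dD Δ f + C (M ^ p * v ^ p * Δ t)).coeff j ∈ Lm R O π (B : ℤ))
    (hv : v ∈ Lm R O π (l : ℤ))
    (hc : IsCoprime (fk K (derivative f)) (fk K (dD Δ f + C (M ^ p * v ^ p * Δ t))))
    (hVD : v ∉ VD O π p Δ M t f m l) :
    {u ∈ Lm R O π (l : ℤ) | ∃ P : HeightOneSpectrum R, qq O ^ m < Nm P ∧
      Sing P.asIdeal (f + C (wK p M t u v))}.ncard * (Lm R O π (m : ℤ)).ncard ≤
      (2 * k + 1) * B * k * (Lm R O π (l : ℤ)).ncard := by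
  classical
  have hHd : (dD Δ f + C (M ^ p * v ^ p * Δ t)).natDegree ≤ k := by
    refine (natDegree_add_le _ _).trans (max_le hk2 ?_)
    rw [natDegree_C]; exact Nat.zero_le _
  obtain ⟨A, a, b, hA0, hAL, hAe⟩ := hRS R K O π H _ _ k B hk1 hHd hfB hDB hc
  obtain ⟨hfin, hcard⟩ := hPR R K O π H hD A _ m hA0 hAL
  have hc2 : hfin.toFinset.card ≤ (2 * k + 1) * B := by
    rw [Set.ncard_eq_toFinset_card _ hfin] at hcard
    exact (Nat.le_mul_of_pos_right _ hm1).trans hcard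
  have hLf := (hU (l : ℤ)).1
  let Bs : HeightOneSpectrum R → Set R := fun P =>
    {u ∈ Lm R O π (l : ℤ) | Sing P.asIdeal (f + C (wK p M t u v))}
  have hBfin : ∀ P, (Bs P).Finite := fun P => hLf.subset (Set.sep_subset _ _)
  have hsub : {u ∈ Lm R O π (l : ℤ) | ∃ P : HeightOneSpectrum R, qq O ^ m < Nm P ∧
      Sing P.asIdeal (f + C (wK p M t u v))} ⊆ ⋃ P ∈ hfin.toFinset, Bs P := by
    rintro u ⟨hu, P, hP, hs⟩
    simp only [Set.mem_iUnion]
    refine ⟨P, hfin.mem_toFinset.2 ⟨?_, hP⟩, hu, hs⟩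
    obtain ⟨Ω, _, _, φ, hφ⟩ := exOm P
    obtain ⟨ξ, h1, h2, h3⟩ := hSN R Δ Ω φ P.asIdeal hφ _ hs
    obtain ⟨-, hadd, -, hC⟩ := hDD R Δ
    rw [hadd, hC, der_w Δ M t u v hp] at h3
    rw [derivative_add, derivative_C, add_zero] at h2
    rw [← hφ, RingHom.mem_ker]
    have h4 := congrArg (fun r => (r.map φ).eval ξ) hAe
    simp only [Polynomial.map_add, Polynomial.map_mul, eval_add, eval_mul, Polynomial.map_C,
      eval_C] at h4 h3
    rw [← h4, h2, mul_zero, zero_add, h3, mul_zero]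
  obtain ⟨h1, h2⟩ := Pool.HYP.Den.ncard_bU hfin.toFinset Bs fun P _ => hBfin P
  have h3 : ∀ P ∈ hfin.toFinset, (Bs P).ncard * (Lm R O π (m : ℤ)).ncard ≤
      k * (Lm R O π (l : ℤ)).ncard := by
    intro P hP
    have hP' := (hfin.mem_toFinset.1 hP).2
    refine u_prime H hCL hSN hU hD hDD hp Δ hP' hml (hM P hP').1 hk1 hk2 ?_
    rintro ⟨h4, h5⟩
    exact hVD ⟨hv, P, hP', h4, h5⟩
  calc {u ∈ Lm R O π (l : ℤ) | ∃ P : HeightOneSpectrum R, qq O ^ m < Nm P ∧
      Sing P.asIdeal (f + C (wK p M t u v))}.ncard * (Lm R O π (m : ℤ)).ncard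
      ≤ (∑ P ∈ hfin.toFinset, (Bs P).ncard) * (Lm R O π (m : ℤ)).ncard :=
        Nat.mul_le_mul_right _ ((Set.ncard_le_ncard hsub h2).trans h1)
    _ = ∑ P ∈ hfin.toFinset, (Bs P).ncard * (Lm R O π (m : ℤ)).ncard := Finset.sum_mul _ _ _
    _ ≤ ∑ _P ∈ hfin.toFinset, k * (Lm R O π (l : ℤ)).ncard := Finset.sum_le_sum h3
    _ = hfin.toFinset.card * (k * (Lm R O π (l : ℤ)).ncard) := by
        rw [Finset.sum_const, smul_eq_mul]
    _ ≤ (2 * k + 1) * B * (k * (Lm R O π (l : ℤ)).ncard) := Nat.mul_le_mul_right _ hc2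
    _ = (2 * k + 1) * B * k * (Lm R O π (l : ℤ)).ncard := by ring

end Main

end Pool.T1.COSKaux

namespace Pool.T1

open Polynomial Matrix Pool.HYP Pool.TOW Pool.AVS IsDedekindDomain Pool.T1.COSKaux

theorem cosk (hDD : DDKStmt) (hPR : PRNKStmt) (hCL : CLNKStmt) (hT1 : T1NKStmt)
    (hRS : RSLKStmt) (hSN : SNPKStmt) : COSKStmt := by
  classical
  intro R _ _ K _ _ _ O π H hU hD p hp hcp Δ c hΔ g hg
  set k := 2 * g + 1 with hk
  refine ⟨k + k + (2 * k + 1) * (k + c) * k, ?_⟩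
  intro D h hDok f hf hsep M t s m l hM0 ht0 hMs hts hm1 hml hps hPM
  have hinj : Function.Injective (algebraMap R K) := IsFractionRing.injective R K
  haveI : CharP K p := hcp
  haveI : CharP R p := (RingHom.charP_iff (algebraMap R K) hinj p).2 hcp
  set B := k * h + c with hB
  have hfn : f.natDegree = k := hf.1.2.1
  have hder0 : derivative f ≠ 0 := by
    intro h0
    rw [separable_def, fk, derivative_map, h0, Polynomial.map_zero, isCoprime_zero_right] at hsep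
    have h1 : (fk K f).natDegree = k := by
      rw [fk, natDegree_map_eq_of_injective hinj, hfn]
    have h2 : (fk K f).natDegree = 0 := natDegree_eq_zero_of_isUnit hsep
    omega
  have hk1 : (derivative f).natDegree ≤ k := (natDegree_derivative_le f).trans (by omega)
  obtain ⟨hco, hadd, -, hC⟩ := hDD R Δ
  have hk2 : (dD Δ f).natDegree ≤ k := by
    rw [natDegree_le_iff_coeff_eq_zero]
    intro j hj
    rw [hco, coeff_eq_zero_of_natDegree_lt (by omega), map_zero]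
  have hfc := fam_coeff H hf
  have hfB0 : ∀ j, (derivative f).coeff j ∈ Lm R O π ((k * h : ℕ) : ℤ) := by
    intro j
    rw [coeff_derivative]
    have h1 := Lm_mul H (hfc (j + 1)) (Lm_nat (O := O) (π := π) (R := R) (j + 1))
    rw [add_zero] at h1
    push_cast at h1
    push_cast
    exact h1
  have hfB : ∀ j, (derivative f).coeff j ∈ Lm R O π (B : ℤ) := fun j =>
    Lm_mono H (by rw [hB]; exact_mod_cast Nat.le_add_right _ _) (hfB0 j)
  have hDB : ∀ v ∈ Lm R O π (l : ℤ), ∀ j,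
      (dD Δ f + C (M ^ p * v ^ p * Δ t)).coeff j ∈ Lm R O π (B : ℤ) := by
    intro v hv j
    rw [coeff_add]
    refine Lm_add ?_ ?_
    · rw [hco]
      have := hΔ _ _ (hfc j)
      refine Lm_mono H ?_ this
      rw [hB]
      push_cast
      exact le_rfl
    · rw [coeff_C]
      split_ifs
      · have h1 := Lm_mul H (Lm_mul H (Lm_pow H hMs p) (Lm_pow H hv p)) (hΔ _ _ hts)
        refine Lm_mono H ?_ h1
        rw [hB]
        push_cast
        have h2 : ((p * (s + l) + s : ℕ) : ℤ) ≤ ((k * h : ℕ) : ℤ) := by exact_mod_cast hps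
        push_cast at h2
        linarith
      · exact Lm_zero
  have hLf := (hU (l : ℤ)).1
  have hLmf := (hU (m : ℤ)).1
  set NL := (Lm R O π (l : ℤ)).ncard with hNL
  set NM := (Lm R O π (m : ℤ)).ncard with hNM
  have hNML : NM ≤ NL := Set.ncard_le_ncard (fun a ha => Lm_mono H (by exact_mod_cast hml) ha) hLf
  set cc := algebraMap R K (M ^ p * Δ t) with hcc
  have hcc0 : cc ≠ 0 := by
    rw [hcc, Ne, map_eq_zero_iff _ hinj]
    exact mul_ne_zero (pow_ne_zero _ hM0) ht0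
  obtain ⟨hTf, hTc⟩ := hT1 K p hp hcp (fk K (derivative f)) (fk K (dD Δ f)) cc
    (by rw [fk, Polynomial.map_ne_zero_iff hinj]; exact hder0) hcc0
  set T1 : Set R := {v ∈ Lm R O π (l : ℤ) | ¬ IsCoprime (fk K (derivative f))
    (fk K (dD Δ f + C (M ^ p * v ^ p * Δ t)))} with hT1d
  have hT1fin : T1.Finite := hLf.subset (Set.sep_subset _ _)
  have hT1c : T1.ncard ≤ k := by
    have h1 : (algebraMap R K '' T1).ncard ≤ (fk K (derivative f)).natDegree := by
      refine (Set.ncard_le_ncard ?_ hTf).trans hTc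
      rintro _ ⟨v, hv, rfl⟩
      have h2 := hv.2
      have h3 : fk K (dD Δ f + C (M ^ p * v ^ p * Δ t)) =
          fk K (dD Δ f) + C (cc * (algebraMap R K v) ^ p) := by
        rw [fk, Polynomial.map_add, Polynomial.map_C, hcc]
        congr 2
        simp only [map_mul, map_pow]
        ring
      rw [h3] at h2
      exact h2
    rw [Set.ncard_image_of_injective _ hinj] at h1
    refine h1.trans ?_
    rw [fk, natDegree_map_eq_of_injective hinj]
    exact hk1
  set VV := VD O π p Δ M t f m l with hVV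
  have hVfin : VV.Finite := hLf.subset (Set.sep_subset _ _)
  have hVc : VV.ncard * NM ≤ k * h * NL :=
    VD_card H hCL hPR hU hD hp Δ hm1 hml hPM hder0 hfB0
  let Bv : R → Set R := fun v => {u ∈ Lm R O π (l : ℤ) | ∃ P : HeightOneSpectrum R,
    qq O ^ m < Nm P ∧ Sing P.asIdeal (f + C (wK p M t u v))}
  have hBvfin : ∀ v, (Bv v).Finite := fun v => hLf.subset (Set.sep_subset _ _)
  have hBvc : ∀ v, (Bv v).ncard ≤ NL := fun v => Set.ncard_le_ncard (Set.sep_subset _ _) hLf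
  let VF := hLf.toFinset
  have hVFc : VF.card = NL := (Set.ncard_eq_toFinset_card _ hLf).symm
  have hsub : XBK O π p M t l (qq O ^ m) f ⊆ ⋃ v ∈ VF, (fun u => (u, v)) '' (Bv v) := by
    rintro ⟨u, v⟩ ⟨h1, h2, h3⟩
    simp only [Set.mem_iUnion]
    exact ⟨v, hLf.mem_toFinset.2 h2, u, ⟨h1, h3⟩, rfl⟩
  obtain ⟨h1, h2⟩ := Pool.HYP.Den.ncard_bU VF (fun v => (fun u => (u, v)) '' (Bv v)) fun v _ =>
    (hBvfin v).image _
  have h3 : (XBK O π p M t l (qq O ^ m) f).ncard ≤ ∑ v ∈ VF, (Bv v).ncard := by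
    refine (Set.ncard_le_ncard hsub h2).trans (h1.trans (Finset.sum_le_sum fun v _ => ?_))
    exact Set.ncard_image_le (hBvfin v)
  set W := (2 * k + 1) * B * k with hW
  obtain ⟨ind, hind⟩ : ∃ ind : Set R → R → ℕ, ∀ S v,
      (v ∈ S → ind S v = NL * NM) ∧ (v ∉ S → ind S v = 0) :=
    ⟨fun S v => if v ∈ S then NL * NM else 0, fun S v => ⟨fun h => if_pos h, fun h => if_neg h⟩⟩
  have h4 : ∀ v ∈ VF, (Bv v).ncard * NM ≤ ind T1 v + ind VV v + W * NL := by
    intro v hv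
    rw [Set.Finite.mem_toFinset] at hv
    by_cases hv1 : v ∈ T1
    · rw [(hind T1 v).1 hv1]
      have := Nat.mul_le_mul_right NM (hBvc v)
      omega
    · by_cases hv2 : v ∈ VV
      · rw [(hind VV v).1 hv2]
        have := Nat.mul_le_mul_right NM (hBvc v)
        omega
      · rw [(hind T1 v).2 hv1, (hind VV v).2 hv2]
        have hc : IsCoprime (fk K (derivative f))
            (fk K (dD Δ f + C (M ^ p * v ^ p * Δ t))) := by
          by_contra hc
          exact hv1 ⟨hv, hc⟩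
        have := good_v H hCL hPR hSN hRS hU hD hDD hp Δ hm1 hml hPM hk1 hk2 hfB (hDB v hv) hv hc
          hv2
        have e : (Bv v).ncard * NM ≤ W * NL := this
        omega
  have hs : ∀ S : Set R, S ⊆ Lm R O π (l : ℤ) → ∑ v ∈ VF, ind S v =
      S.ncard * (NL * NM) := by
    intro S hS
    have hSf := hLf.subset hS
    have h5 : ∑ v ∈ hSf.toFinset, ind S v = ∑ v ∈ VF, ind S v := by
      refine Finset.sum_subset ?_ ?_
      · intro v hv
        exact hLf.mem_toFinset.2 (hS (hSf.mem_toFinset.1 hv))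
      · intro v _ hv
        exact (hind S v).2 (fun h => hv (hSf.mem_toFinset.2 h))
    rw [← h5, Finset.sum_congr rfl (fun v hv => (hind S v).1 (hSf.mem_toFinset.1 hv)),
      Finset.sum_const, smul_eq_mul, ← Set.ncard_eq_toFinset_card S hSf]
  calc (XBK O π p M t l (qq O ^ m) f).ncard * NM
      ≤ (∑ v ∈ VF, (Bv v).ncard) * NM := Nat.mul_le_mul_right _ h3
    _ = ∑ v ∈ VF, (Bv v).ncard * NM := Finset.sum_mul _ _ _
    _ ≤ ∑ v ∈ VF, (ind T1 v + ind VV v + W * NL) := Finset.sum_le_sum h4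
    _ = T1.ncard * (NL * NM) + VV.ncard * (NL * NM) + NL * (W * NL) := by
        rw [Finset.sum_add_distrib, Finset.sum_add_distrib, hs T1 (Set.sep_subset _ _),
          hs VV (Set.sep_subset _ _), Finset.sum_const, hVFc, smul_eq_mul]
    _ ≤ k * (NL * NL) + NL * (k * h * NL) + NL * (W * NL) := by
        apply Nat.add_le_add_right
        apply Nat.add_le_add
        · exact Nat.mul_le_mul hT1c (Nat.mul_le_mul_left _ hNML)
        · calc VV.ncard * (NL * NM) = NL * (VV.ncard * NM) := by ring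
            _ ≤ _ := Nat.mul_le_mul_left _ hVc
    _ = (k + k * h + W) * NL ^ 2 := by ring
    _ ≤ (k + k + (2 * k + 1) * (k + c) * k) * (h + 1) * NL ^ 2 := by
        apply Nat.mul_le_mul_right
        have h5 : B ≤ (k + c) * (h + 1) := by
          rw [hB]
          nlinarith [Nat.zero_le (c * h), Nat.zero_le k]
        have h6 : W ≤ (2 * k + 1) * ((k + c) * (h + 1)) * k := by
          rw [hW]
          exact Nat.mul_le_mul_right _ (Nat.mul_le_mul_left _ h5)
        have h7 : k + k * h ≤ (k + k) * (h + 1) := by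
          nlinarith [Nat.zero_le (k * h)]
        calc k + k * h + W ≤ (k + k) * (h + 1) + (2 * k + 1) * ((k + c) * (h + 1)) * k :=
              Nat.add_le_add h7 h6
          _ = (k + k + (2 * k + 1) * (k + c) * k) * (h + 1) := by ring

end Pool.T1
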