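import Pool.Agent.H41.T1.S5

/-!
# T1: statements of the modules, part 6 (the proportion of the smooth equations)
-/

set_option autoImplicit false

namespace Pool.T1

open Polynomial Matrix Pool.HYP Pool.TOW Pool.AVS IsDedekindDomain

section Defs6

/-- The derivation `Δ` applied to the coefficients. -/
noncomputable def dD {R : Type} [CommRing R] (Δ : Derivation ℤ R R) (f : R[X]) : R[X] :=
  ∑ i ∈ Finset.range (f.natDegree + 1), C (Δ (f.coeff i)) * X ^ i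

/-- The monic polynomials of degree `n` which are singular above `𝔭`, in a ring with `𝔭 ^ 2 = 0`. -/
def SgS {S : Type} [CommRing S] (𝔭 : Ideal S) (n : ℕ) : Set S[X] :=
  {f | f.Monic ∧ f.natDegree = n ∧ ∃ γ a b : S[X], γ.Monic ∧ Irreducible (md 𝔭 γ) ∧ Zer 𝔭 b ∧
    f = γ ^ 2 * a + γ * b}

/-- The size of principal ideals (the conclusion of GRD). -/
def CntD (R : Type) [CommRing R] {K : Type} [Field K] [Algebra R K] (O : ValuationSubring K)
    (π : K) : Prop :=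
  ∀ a : R, a ≠ 0 → ∃ n : ℕ, algebraMap R K a * π ^ n ∈ O ∧ (algebraMap R K a * π ^ n)⁻¹ ∈ O ∧
    Nat.card (R ⧸ Ideal.span {a}) = qq O ^ n ∧ ∀ m : ℤ, a ∈ Lm R O π m ↔ (n : ℤ) ≤ m

variable {R : Type} [CommRing R] [IsDomain R] {K : Type} [Field K] [Algebra R K]

/-- The product of the norms of the primes of `T` and `T'`. -/
noncomputable def nmD {O : ValuationSubring K} (D : Dat R O) : ℕ :=
  (∏ P ∈ D.T, Nm P) * ∏ P ∈ D.T', Nm P

/-- The perturbation. -/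
noncomputable def wK (p : ℕ) (M t u v : R) : R := M ^ p * (u ^ p + t * v ^ p)

/-- The polynomials which are singular above a prime of norm greater than `b`. -/
def SingL {O : ValuationSubring K} (π : K) (g : ℕ) (D : Dat R O) (h b : ℕ) : Set R[X] :=
  {f ∈ Fam π g D h | ∃ P : HeightOneSpectrum R, b < Nm P ∧ Sing P.asIdeal f}

/-- The pairs `(u, v)` such that the perturbed polynomial is singular above a prime of norm
greater than `b`. -/
def XBK (O : ValuationSubring K) (π : K) (p : ℕ) (M t : R) (l b : ℕ) (f : R[X]) : Set (R × R) :=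
  {x | x.1 ∈ Lm R O π (l : ℤ) ∧ x.2 ∈ Lm R O π (l : ℤ) ∧
    ∃ P : HeightOneSpectrum R, b < Nm P ∧ Sing P.asIdeal (f + C (wK p M t x.1 x.2))}

end Defs6

/-- DDK: the derivation on polynomials.  (H94/HYP/DenE, dt.) -/
def DDKStmt : Prop :=
  ∀ (R : Type) [CommRing R] (Δ : Derivation ℤ R R),
    (∀ (f : R[X]) (j : ℕ), (dD Δ f).coeff j = Δ (f.coeff j)) ∧
    (∀ f g : R[X], dD Δ (f + g) = dD Δ f + dD Δ g) ∧
    (∀ f g : R[X], dD Δ (f * g) = dD Δ f * g + f * dD Δ g) ∧ ∀ c : R, dD Δ (C c) = C (Δ c)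

/-- SNTK: not singular above the primes of `T` and `T'`.  (H94/HYP/DenC, sing_T.) -/
def SNTKStmt : Prop :=
  ∀ (R : Type) [CommRing R] [IsDedekindDomain R] (K : Type) [Field K] [Algebra R K]
    [IsFractionRing R K] (O : ValuationSubring K) (π : K), GR R O π →
    ∀ (g : ℕ) (D : Dat R O) (h : ℕ), D.Ok g → ∀ f ∈ Fam π g D h,
    ∀ P : HeightOneSpectrum R, P ∈ D.T ∨ P ∈ D.T' → ¬ Sing P.asIdeal f

/-- SGSK: the number of the singular polynomials modulo `P ^ 2`.  (For every monic irreducible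
`γ` of degree `e` over `S / 𝔭` take one monic lift; the ideal `(γ, 𝔭) ^ 2` does not depend on it.
The map `(f, r, s) ↦ f + r + γ s`, `r` any polynomial of degree `< e` over `S`, `s` in a set of
representatives of the polynomials of degree `< e` modulo `𝔭`, is injective on
`{f singular at γ} × ...` with values in the monic polynomials of degree `n`: so at most
`|S|^n / q^(3e)` of them, `q = |S/𝔭|`, there are at most `q^e` such `γ`, and the sum of `q^(-2e)` over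
`e ≥ 1` is `1 / (q^2 - 1)`.  H94/HYP/DenB.) -/
def SGSKStmt : Prop :=
  ∀ (S : Type) [CommRing S] [Finite S] (𝔭 : Ideal S) (n : ℕ), 𝔭.IsMaximal → 𝔭 ^ 2 = ⊥ →
    Nat.card S = Nat.card (S ⧸ 𝔭) ^ 2 →
    (SgS 𝔭 n).Finite ∧ (SgS 𝔭 n).ncard * (Nat.card (S ⧸ 𝔭) ^ 2 - 1) ≤ Nat.card S ^ n

/-- EQFK: equal distribution of the family modulo `P ^ 2`.  (As FAMK: both sides are computed
exactly with CntX, for the ideals `P^2 ∏ P'` and `∏ P'`.) -/
def EQFKStmt : Prop :=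
  ∀ (R : Type) [CommRing R] [IsDedekindDomain R] (K : Type) [Field K] [Algebra R K]
    [IsFractionRing R K] (O : ValuationSubring K) (π : K), GR R O π → CntU R O π →
    ∀ c₀ : ℕ, CntX R O π c₀ → ∀ (g : ℕ) (D : Dat R O) (h : ℕ), 1 ≤ g → D.Ok g →
    ∀ P : HeightOneSpectrum R, P ∉ D.T → P ∉ D.T' → c₀ * (Nm P ^ 2 * nmD D) ≤ qq O ^ h →
    ∀ r : R[X], r.Monic → r.natDegree = 2 * g + 1 →
    {f ∈ Fam π g D h | Zer (P.asIdeal ^ 2) (f - r)}.ncard * Nm P ^ (2 * (2 * g + 1)) =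
      (Fam π g D h).ncard

/-- SM1K: one small prime.  (`f` singular above `P` => `f mod P^2` is in `SgS`.) -/
def SM1KStmt : Prop :=
  ∀ (R : Type) [CommRing R] [IsDedekindDomain R] (K : Type) [Field K] [Algebra R K]
    [IsFractionRing R K] (O : ValuationSubring K) (π : K), GR R O π → CntU R O π →
    ∀ c₀ : ℕ, CntX R O π c₀ → ∀ (g : ℕ) (D : Dat R O) (h : ℕ), 1 ≤ g → D.Ok g →
    ∀ P : HeightOneSpectrum R, P ∉ D.T → P ∉ D.T' → c₀ * (Nm P ^ 2 * nmD D) ≤ qq O ^ h →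
    {f ∈ Fam π g D h | Sing P.asIdeal f}.ncard * (Nm P ^ 2 - 1) ≤ (Fam π g D h).ncard

/-- PRTK: the family is stable under small perturbations of the constant coefficient. -/
def PRTKStmt : Prop :=
  ∀ (R : Type) [CommRing R] [IsDedekindDomain R] (K : Type) [Field K] [Algebra R K]
    [IsFractionRing R K] (O : ValuationSubring K) (π : K), GR R O π →
    ∀ (g : ℕ) (D : Dat R O) (h : ℕ) (w : R),
    w ∈ Lm R O π ((((2 * g + 1) * h : ℕ) : ℤ) - 1) → (∀ P ∈ D.T, w ∈ P.asIdeal) →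
    (∀ P ∈ D.T', w ∈ P.asIdeal) → ∀ f : R[X], f + C w ∈ Fam π g D h ↔ f ∈ Fam π g D h

/-- PRNK: the number of the large primes which contain `a`.  (`∏ P ∣ (a)`, CntD.) -/
def PRNKStmt : Prop :=
  ∀ (R : Type) [CommRing R] [IsDedekindDomain R] (K : Type) [Field K] [Algebra R K]
    [IsFractionRing R K] (O : ValuationSubring K) (π : K), GR R O π → CntD R O π →
    ∀ (a : R) (B m : ℕ), a ≠ 0 → a ∈ Lm R O π (B : ℤ) →
    {P : HeightOneSpectrum R | a ∈ P.asIdeal ∧ qq O ^ m < Nm P}.Finite ∧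
      {P : HeightOneSpectrum R | a ∈ P.asIdeal ∧ qq O ^ m < Nm P}.ncard * m ≤ B

/-- CLNK: the elements of a class modulo a large prime.  (`S × L(m) → L(l)`, `(u, w) ↦ u + w` is
injective, since `0 ≠ w ∈ L(m) ∩ P` has `Nm P ≤ |R/(w)| ≤ Q^m`.) -/
def CLNKStmt : Prop :=
  ∀ (R : Type) [CommRing R] [IsDedekindDomain R] (K : Type) [Field K] [Algebra R K]
    [IsFractionRing R K] (O : ValuationSubring K) (π : K), GR R O π → CntU R O π → CntD R O π →
    ∀ (P : HeightOneSpectrum R) (m l : ℕ) (S : Set R), qq O ^ m < Nm P → m ≤ l →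
    S ⊆ Lm R O π (l : ℤ) → (∀ u ∈ S, ∀ u' ∈ S, u - u' ∈ P.asIdeal) →
    S.ncard * (Lm R O π (m : ℤ)).ncard ≤ (Lm R O π (l : ℤ)).ncard

/-- T1NK: few values of `v` for which the two polynomials are not coprime over `K`.  (One for each
irreducible factor of `G`.  H94/HYP/DenG, type1_card.) -/
def T1NKStmt : Prop :=
  ∀ (K : Type) [Field K] (p : ℕ), p.Prime → CharP K p → ∀ (G H : K[X]) (c : K), G ≠ 0 → c ≠ 0 →
    {v : K | ¬ IsCoprime G (H + C (c * v ^ p))}.Finite ∧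
      {v : K | ¬ IsCoprime G (H + C (c * v ^ p))}.ncard ≤ G.natDegree

/-- RSLK: the resultant.  (Entries of the Sylvester matrix.  H94/HYP/DenE.) -/
def RSLKStmt : Prop :=
  ∀ (R : Type) [CommRing R] [IsDedekindDomain R] (K : Type) [Field K] [Algebra R K]
    [IsFractionRing R K] (O : ValuationSubring K) (π : K), GR R O π →
    ∀ (G H : R[X]) (k B : ℕ), G.natDegree ≤ k → H.natDegree ≤ k →
    (∀ j, G.coeff j ∈ Lm R O π (B : ℤ)) → (∀ j, H.coeff j ∈ Lm R O π (B : ℤ)) →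
    IsCoprime (fk K G) (fk K H) →
    ∃ (A : R) (a b : R[X]), A ≠ 0 ∧ A ∈ Lm R O π (((2 * k + 1) * B : ℕ) : ℤ) ∧
      a * G + b * H = C A

/-- SNPK: a singular point gives a common root of `f`, its derivative and `Δ f` modulo `P`.
(H94/HYP/DenE, sing_point; `Δ` maps `P ^ 2` to `P`.) -/
def SNPKStmt : Prop :=
  ∀ (R : Type) [CommRing R] (Δ : Derivation ℤ R R) (Ω : Type) [Field Ω] [IsAlgClosed Ω]
    (φ : R →+* Ω) (P : Ideal R), RingHom.ker φ = P → ∀ f : R[X], Sing P f →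
    ∃ ξ : Ω, (f.map φ).eval ξ = 0 ∧ ((derivative f).map φ).eval ξ = 0 ∧
      ((dD Δ f).map φ).eval ξ = 0

/-- COSK: one coset.  (H94/HYP/DenG, DenH.) -/
def COSKStmt : Prop :=
  ∀ (R : Type) [CommRing R] [IsDedekindDomain R] (K : Type) [Field K] [Algebra R K]
    [IsFractionRing R K] (O : ValuationSubring K) (π : K), GR R O π → CntU R O π → CntD R O π →
    ∀ p : ℕ, p.Prime → CharP K p → ∀ (Δ : Derivation ℤ R R) (c : ℕ),
    (∀ (m : ℤ) (a : R), a ∈ Lm R O π m → Δ a ∈ Lm R O π (m + c)) →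
    ∀ g : ℕ, 1 ≤ g → ∃ κ : ℕ, ∀ (D : Dat R O) (h : ℕ), D.Ok g → ∀ f ∈ Fam π g D h,
    (fk K f).Separable → ∀ (M t : R) (s m l : ℕ), M ≠ 0 → Δ t ≠ 0 → M ∈ Lm R O π (s : ℤ) →
      t ∈ Lm R O π (s : ℤ) → 1 ≤ m → m ≤ l → p * (s + l) + s ≤ (2 * g + 1) * h →
      (∀ P : HeightOneSpectrum R, qq O ^ m < Nm P → M ∉ P.asIdeal ∧ Δ t ∉ P.asIdeal) →
      (XBK O π p M t l (qq O ^ m) f).ncard * (Lm R O π (m : ℤ)).ncard ≤
        κ * (h + 1) * (Lm R O π (l : ℤ)).ncard ^ 2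

/-- AVGK: the average over the cosets.  (Double counting of the pairs `f`, `(u, v)` with
`f + w(u, v)` in `SingL`; `f ↦ f + w` is a bijection of the family by PRTK.) -/
def AVGKStmt : Prop :=
  ∀ (R : Type) [CommRing R] [IsDedekindDomain R] (K : Type) [Field K] [Algebra R K]
    [IsFractionRing R K] (O : ValuationSubring K) (π : K), GR R O π → CntU R O π →
    ∀ (g : ℕ) (D : Dat R O) (h p : ℕ) (M t : R) (s m l κ : ℕ), 1 ≤ p →
    (Fam π g D h).Finite → M ∈ Lm R O π (s : ℤ) → t ∈ Lm R O π (s : ℤ) →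
    p * (s + l) + s + 1 ≤ (2 * g + 1) * h → (∀ P ∈ D.T, M ∈ P.asIdeal) →
    (∀ P ∈ D.T', M ∈ P.asIdeal) →
    (∀ f ∈ Fam π g D h, (XBK O π p M t l (qq O ^ m) f).ncard * (Lm R O π (m : ℤ)).ncard ≤
        κ * (h + 1) * (Lm R O π (l : ℤ)).ncard ^ 2) →
    (SingL π g D h (qq O ^ m)).ncard * (Lm R O π (m : ℤ)).ncard ≤
      κ * (h + 1) * (Fam π g D h).ncard

/-- LIMK: few polynomials are singular above a large prime.  (`m = l = h / (4 p)`.) -/
def LIMKStmt : Prop :=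
  ∀ (R : Type) [CommRing R] [IsDedekindDomain R] (K : Type) [Field K] [Algebra R K]
    [IsFractionRing R K] (O : ValuationSubring K) (π : K), GR R O π → CntU R O π →
    (∃ c : ℕ, CntL R O π c) → CntD R O π → Der R O π →
    ∀ (g : ℕ) (D : Dat R O), 1 ≤ g → D.Ok g → ∀ c₀ : ℕ, ∃ h₀ : ℕ, ∀ h : ℕ, h₀ ≤ h →
    8 * {f ∈ Fam π g D h | ∃ P : HeightOneSpectrum R, qq O ^ h < c₀ * (Nm P ^ 2 * nmD D) ∧
      Sing P.asIdeal f}.ncard ≤ (Fam π g D h).ncard

/-- SMSK: few polynomials are singular above a small prime.  (Sum of SM1K, SNTK.) -/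
def SMSKStmt : Prop :=
  ∀ (R : Type) [CommRing R] [IsDedekindDomain R] (K : Type) [Field K] [Algebra R K]
    [IsFractionRing R K] (O : ValuationSubring K) (π : K), GR R O π → CntU R O π →
    ∀ c₀ : ℕ, 1 ≤ c₀ → CntX R O π c₀ → (∀ b : ℕ, {P : HeightOneSpectrum R | Nm P ≤ b}.Finite) →
    ∀ (b : ℕ) (B : Finset (HeightOneSpectrum R)), 1 ≤ b →
    (∀ P : HeightOneSpectrum R, Nm P ≤ b → P ∈ B) →
    (∀ A : Finset (HeightOneSpectrum R), (∀ P ∈ A, b < Nm P) →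
      ∑ P ∈ A, ((Nm P : ℝ) ^ 2 - 1)⁻¹ ≤ 1 / 8) →
    ∀ (g : ℕ) (D : Dat R O) (h : ℕ), 1 ≤ g → D.Ok g → B ⊆ D.T' →
    8 * {f ∈ Fam π g D h | ∃ P : HeightOneSpectrum R, c₀ * (Nm P ^ 2 * nmD D) ≤ qq O ^ h ∧
      Sing P.asIdeal f}.ncard ≤ (Fam π g D h).ncard

end Pool.T1
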