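import Pool.Agent.H94.T1.S6
import Pool.Agent.H58.T1.S1
import Pool.Agent.H29.T1.POSb

/-!
# T1, row DENK: most equations are smooth
-/

set_option autoImplicit false

namespace Pool.T1

open Polynomial Matrix Pool.HYP Pool.TOW Pool.AVS IsDedekindDomain

/-- DENK: most equations are smooth, if small primes are in `T'`. -/
def DENKStmt : Prop :=
  ∀ (R : Type) [CommRing R] [IsDedekindDomain R] (K : Type) [Field K] [Algebra R K]
    [IsFractionRing R K] (O : ValuationSubring K) (π : K), GR R O π → Der R O π →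
    ∀ g : ℕ, 1 ≤ g → ∃ A : Finset (HeightOneSpectrum R), DenP O π g A

theorem denk (hGRA : GRAStmt) (hGRD : GRDStmt) (hGRB : GRBStmt) (hGRE : GREStmt)
    (hGRF : GRFStmt) (hALL : ALLKStmt) (hLIM : LIMKStmt) (hSMS : SMSKStmt) : DENKStmt := by
  classical
  intro R _ _ K _ _ _ O π H hDer g hg
  obtain ⟨-, hU, -, hL, -⟩ := hGRA R K O π H
  have hD : CntD R O π := hGRD R K O π H
  obtain ⟨C₀, hC₀⟩ := hGRB R K O π H
  have hX : CntX R O π (C₀ + 1) := by
    intro I m hI hm r x hx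
    exact (hC₀ I m hI (le_trans (Nat.mul_le_mul_right _ (Nat.le_succ _)) hm)).1 r x hx
  have hE := (hGRE R K O π H).1
  obtain ⟨b, hb1, hb⟩ := hGRF R K O π H (1 / 8) (by norm_num)
  refine ⟨(hE b).toFinset, fun D hOk hA => ?_⟩
  obtain ⟨h₀, hh₀⟩ := hLIM R K O π H hU hL hD hDer g D hg hOk (C₀ + 1)
  refine ⟨h₀, fun h hh => ?_⟩
  have h1 := hh₀ h hh
  have h2 := hSMS R K O π H hU (C₀ + 1) (Nat.succ_pos _) hX hE b (hE b).toFinset hb1
    (fun P hP => (hE b).mem_toFinset.2 hP) hb g D h hg hOk hA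
  have hfin : (Fam π g D h).Finite :=
    (hALL R K O π H (fun m => (hU m).1) g h).1.subset fun f hf => hf.1
  have hsub : {f ∈ Fam π g D h | ¬ Smooth f} ⊆
      {f ∈ Fam π g D h | ∃ P : HeightOneSpectrum R,
        (C₀ + 1) * (Nm P ^ 2 * nmD D) ≤ qq O ^ h ∧ Sing P.asIdeal f} ∪
      {f ∈ Fam π g D h | ∃ P : HeightOneSpectrum R,
        qq O ^ h < (C₀ + 1) * (Nm P ^ 2 * nmD D) ∧ Sing P.asIdeal f} := by
    rintro f ⟨hf, hs⟩
    unfold Smooth at hs
    push Not at hs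
    obtain ⟨P, hP⟩ := hs
    rcases le_or_gt ((C₀ + 1) * (Nm P ^ 2 * nmD D)) (qq O ^ h) with h3 | h3
    · exact Or.inl ⟨hf, P, h3, hP⟩
    · exact Or.inr ⟨hf, P, h3, hP⟩
  have h3 := (Set.ncard_le_ncard hsub ((hfin.subset (Set.sep_subset _ _)).union
    (hfin.subset (Set.sep_subset _ _)))).trans (Set.ncard_union_le _ _)
  omega

end Pool.T1
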