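import Pool.Agent.H94.T1.ZUDBb

/-!
# T1, row ZUDB: unit classes and unramified extensions
-/

set_option autoImplicit false

namespace Pool.T1.Zudb94

open Polynomial Pool.HYP Pool.AVS Pool.TOW Pool.TOW.UD IsDedekindDomain

theorem lv_of {R : Type} [CommRing R] [IsDedekindDomain R] {K : Type} [Field K] [Algebra R K]
    [IsFractionRing R K] {P : HeightOneSpectrum R} {ϖ : R} {L : Type} [Field L]
    {O' : ValuationSubring L} {ι : K →+* L} (hU : UCP P ϖ L O' ι) :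
    LV P ϖ (O'.comap ι) where
  loc :=
    { pi_ne := fun h => hU.loc.pi_ne (by rw [h, map_zero])
      pi_mem := hU.loc.pi_mem
      unif := by
        intro x hx hx0
        have h1 := hU.loc.unif (ι x) hx ((map_ne_zero ι).2 hx0)
        rw [← map_inv₀, ← map_div₀] at h1
        exact h1
      arch := by
        intro x hx
        obtain ⟨n, h1, h2⟩ := hU.loc.arch (ι x) ((map_ne_zero ι).2 hx)
        rw [← map_zpow₀, ← map_div₀] at h1 h2
        rw [← map_inv₀] at h2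
        exact ⟨n, h1, h2⟩ }
  int := hU.int
  mem := by
    intro a
    have h1 := hU.mem a
    rw [← map_div₀] at h1
    exact h1

theorem alg_sq {R : Type*} [CommRing R] {A B S U α p : R} {k m : ℕ}
    (q1 : A * S * U ^ k = B * U ^ m) (q2 : α * S ^ 2 = p) :
    B ^ 2 * α * (U ^ 2) ^ m = A ^ 2 * p * (U ^ 2) ^ k := by
  have e1 : (U ^ 2) ^ m = (U ^ m) ^ 2 := by rw [← pow_mul, ← pow_mul, mul_comm]
  have e2 : (U ^ 2) ^ k = (U ^ k) ^ 2 := by rw [← pow_mul, ← pow_mul, mul_comm]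
  rw [e1, e2]
  calc B ^ 2 * α * (U ^ m) ^ 2 = α * (B * U ^ m) ^ 2 := by ring
    _ = α * (A * S * U ^ k) ^ 2 := by rw [q1]
    _ = A ^ 2 * (α * S ^ 2) * (U ^ k) ^ 2 := by ring
    _ = A ^ 2 * p * (U ^ k) ^ 2 := by rw [q2]

end Pool.T1.Zudb94

namespace Pool.T1

open Polynomial Pool.HYP Pool.AVS Pool.TOW Pool.TOW.UD IsDedekindDomain Pool.T1.Zudb94

/-- **ZUDB**, with the row ZUDA as a hypothesis. -/
theorem zudb (hUDA : ZUDAStmt) : ZUDBStmt := by
  intro R _ _ K _ _ _ OO π hR P ϖ L _ O ι hU f hf hns fO' hfO α hα husl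
  have h : LV P ϖ (O.comap ι) := lv_of hU
  have hcc : ∀ x : K, ι x ∈ O ↔ x ∈ O.comap ι := fun x => Iff.rfl
  apply us_of_usl h
  refine W2.ev2 K (O.comap ι) (algebraMap R K ϖ) h.loc (jR h ϖ) (fV h f) α rfl (hf.map _) ?_
  intro γ hγ hirr hdvd
  have hin : ¬ InSq (jR h ϖ) (fV h f) γ := fun h' => hns (sing_of_insq h f γ hγ hirr h')
  refine ⟨hin, ?_⟩
  have hα' : IsCoprime α (oL (O.comap ι) (fV h f)) := by rw [oL_fV]; exact hα
  obtain ⟨n, hn⟩ := W.ev0 h.loc (jR h ϖ) (fV h f) γ rfl (hf.map _) hγ hirr hdvd hin α hα'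
  refine ⟨n, ?_, hn⟩
  -- an irreducible factor over the residue field of `O`
  have hγ1 : (rd O (γ.map (iV hcc))).Monic := (hγ.map _).map _
  have hdeg : 0 < (rd O (γ.map (iV hcc))).natDegree := by
    rw [rd, (hγ.map _).natDegree_map, hγ.natDegree_map, ← hγ.natDegree_map
      (IsLocalRing.residue (O.comap ι))]
    exact hirr.natDegree_pos
  have hnu : ¬ IsUnit (rd O (γ.map (iV hcc))) := by
    intro h'
    have := natDegree_eq_zero_of_isUnit h'
    omega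
  obtain ⟨q, hq, hqd⟩ := WfDvdMonoid.exists_irreducible_factor hnu hγ1.ne_zero
  have hq0 := hq.ne_zero
  obtain ⟨γ', hγ'1, hγ'm⟩ := H20.exists_monic_lift (O := O) (q * C q.leadingCoeff⁻¹)
    (monic_mul_leadingCoeff_inv hq0)
  have hirr' : Irreducible (rd O γ') := by
    rw [hγ'1]; exact irreducible_mul_leadingCoeff_inv.2 hq
  have hd' : rd O γ' ∣ rd O (γ.map (iV hcc)) := by
    rw [hγ'1]; exact H20.mul_right_dvd_of_unit hq0 hqd
  have T := transfer h.loc (jR h ϖ) rfl hU.loc hcc (fV h f) γ hirr hdvd hin γ' hirr' hd' n α hn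
  have hfe : fO' = (fV h f).map (iV hcc) := Zudb94.oL_inj (by rw [hfO, Zudb94.oL_ext, oL_fV])
  subst hfe
  obtain ⟨fO2, -, -, hfO2, hInSq⟩ := hUDA R K OO π hR P ϖ L O ι hU f hf
  have hfe2 : fO2 = (fV h f).map (iV hcc) := Zudb94.oL_inj (by rw [hfO2, Zudb94.oL_ext, oL_fV])
  subst hfe2
  have hin' : ¬ InSq (iV hcc (jR h ϖ)) ((fV h f).map (iV hcc)) γ' :=
    fun h' => hns (hInSq _ rfl γ' hγ'm hirr' h')
  obtain ⟨s, p, hs, hd, hc⟩ := husl
  have hdvd' : rd O γ' ∣ rd O ((fV h f).map (iV hcc)) := by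
    refine hd'.trans ?_
    rw [Zudb94.rd_ext, Zudb94.rd_ext]
    exact Polynomial.map_dvd _ hdvd
  have EV := Pool.HYP.ev0 L O (ι (algebraMap R K ϖ)) hU.loc (iV hcc (jR h ϖ))
    ((fV h f).map (iV hcc)) γ' rfl ((hf.map _).map _) hγ'm hirr' hdvd' hin'
  obtain ⟨j, a1, b1, k1, m1, ha1, hb1, hj, hab⟩ := EV.1 s hs
  have V2 : VAL O (iV hcc (jR h ϖ)) ((fV h f).map (iV hcc)) γ'
      (2 * (k1 : ℤ) - 2 * (m1 : ℤ)) (α.map ι) := by
    refine ⟨b1 ^ 2, a1 ^ 2 * p, 2 * m1, 2 * k1, ?_, ?_, by push_cast; ring, ?_⟩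
    · rw [EVZ.rd_pow]; exact hb1.pow_left
    · rw [EVZ.rd_mul, EVZ.rd_pow]
      exact ha1.pow_left.mul_left (hc.of_isCoprime_of_dvd_right hdvd')
    · have q1 := AdjoinRoot.mk_eq_mk.2 hab
      have q2 := AdjoinRoot.mk_eq_mk.2 hd
      rw [← AdjoinRoot.mk_eq_mk]
      simp only [oL, Polynomial.map_mul, Polynomial.map_pow, map_mul, map_pow, pow_mul] at q1 q2 ⊢
      exact Zudb94.alg_sq q1 q2
  have hn2 := EV.2 (α.map ι) n _ T V2
  rw [hn2]
  exact ⟨(k1 : ℤ) - m1, by ring⟩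

end Pool.T1
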