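import Pool.Agent.H29.T1.ZS
import Pool.Agent.H81.TOW.LW2

/-!
# T1, row ZUDB, part 1: transfer of orders to an extension with the same uniformizer
(the port of H81/TOW/K2, K3 to an arbitrary discrete valuation ring)
-/

set_option autoImplicit false

namespace Pool.T1.Zudb94

open Polynomial Pool.HYP Pool.AVS Pool.TOW Pool.TOW.UD

variable {K : Type} [Field K] {V : ValuationSubring K} {π₀ : K} {L : Type} [Field L]
  {O : ValuationSubring L} {ι : K →+* L}

/-- The map of the valuation rings. -/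
noncomputable def iV (hcc : ∀ x : K, ι x ∈ O ↔ x ∈ V) : V →+* O where
  toFun x := ⟨ι x, (hcc x).2 x.2⟩
  map_one' := Subtype.ext (map_one ι)
  map_mul' _ _ := Subtype.ext (map_mul ι _ _)
  map_zero' := Subtype.ext (map_zero ι)
  map_add' _ _ := Subtype.ext (map_add ι _ _)

theorem iV_local (hcc : ∀ x : K, ι x ∈ O ↔ x ∈ V) : IsLocalHom (iV hcc) := by
  refine ⟨fun a ha => ?_⟩
  by_cases ha0 : (a : K) = 0
  · exfalso
    have h1 : a = 0 := Subtype.ext ha0
    rw [h1, map_zero] at ha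
    exact not_isUnit_zero ha
  obtain ⟨v, hv⟩ := ha.exists_right_inv
  have h1 : ι a * (v : L) = 1 := congrArg Subtype.val hv
  have h2 : ι ((a : K)⁻¹) ∈ O := by
    rw [map_inv₀, inv_eq_of_mul_eq_one_right h1]
    exact v.2
  have h3 : (a : K)⁻¹ ∈ V := (hcc _).1 h2
  exact IsUnit.of_mul_eq_one ⟨(a : K)⁻¹, h3⟩ (Subtype.ext (mul_inv_cancel₀ ha0))

/-- The map of the residue fields. -/
noncomputable def rV (hcc : ∀ x : K, ι x ∈ O ↔ x ∈ V) :
    IsLocalRing.ResidueField V →+* IsLocalRing.ResidueField O :=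
  haveI := iV_local hcc
  IsLocalRing.ResidueField.map (iV hcc)

theorem rd_ext (hcc : ∀ x : K, ι x ∈ O ↔ x ∈ V) (p : V[X]) :
    rd O (p.map (iV hcc)) = (rd V p).map (rV hcc) := by
  rw [rd, rd, Polynomial.map_map, Polynomial.map_map]
  rfl

theorem oL_ext (hcc : ∀ x : K, ι x ∈ O ↔ x ∈ V) (p : V[X]) :
    oL O (p.map (iV hcc)) = (oL V p).map ι := by
  rw [oL, oL, Polynomial.map_map, Polynomial.map_map]
  rfl

theorem iV_loc (hcc : ∀ x : K, ι x ∈ O ↔ x ∈ V) (w : V) (hw : (w : K) = π₀) :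
    ((iV hcc w : O) : L) = ι π₀ := by
  show ι (w : K) = ι π₀
  rw [hw]

theorem sep (hl : Loc L O (ι π₀)) (hcc : ∀ x : K, ι x ∈ O ↔ x ∈ V)
    {q : (IsLocalRing.ResidueField V)[X]} (hq : Irreducible q) :
    Squarefree (q.map (rV hcc)) := by
  have hfin : Finite (IsLocalRing.ResidueField O) := hl.fin
  have hfin2 : Finite (IsLocalRing.ResidueField V) :=
    Finite.of_injective (rV hcc) (rV hcc).injective
  exact (PerfectField.separable_of_irreducible hq).map.squarefree

theorem cop_ext (hcc : ∀ x : K, ι x ∈ O ↔ x ∈ V) {a b : V[X]}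
    (h : IsCoprime (rd V a) (rd V b)) {c : (IsLocalRing.ResidueField O)[X]}
    (hc : c ∣ rd O (b.map (iV hcc))) : IsCoprime (rd O (a.map (iV hcc))) c := by
  rw [rd_ext] at hc ⊢
  exact (h.map (mapRingHom (rV hcc))).of_isCoprime_of_dvd_right hc

theorem transfer (hV : LocW K V π₀) (w : V) (hw : (w : K) = π₀)
    (hl : Loc L O (ι π₀)) (hcc : ∀ x : K, ι x ∈ O ↔ x ∈ V) (f γ : V[X])
    (hirr : Irreducible (rd (V) γ))
    (hdvd : rd (V) γ ∣ rd (V) f) (hns : ¬ InSq (w) f γ) (γ' : O[X])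
    (hirr' : Irreducible (rd O γ')) (hd' : rd O γ' ∣ rd O (γ.map (iV hcc))) (n : ℤ)
    (α : (K)[X]) (h : VAL (V) (w) f γ n α) :
    VAL O (iV hcc w) (f.map (iV hcc)) γ' n (α.map ι) := by
  classical
  have hsq := sep hl hcc hirr
  rw [← rd_ext] at hsq
  have hnsq : ¬ rd O γ' ^ 2 ∣ rd O (γ.map (iV hcc)) := by
    intro h
    rw [pow_two] at h
    exact hirr'.not_isUnit (hsq _ h)
  have hcop' : ∀ p : O[X], IsCoprime (rd O p) (rd O γ') ↔ ¬ rd O γ' ∣ rd O p := fun p => by
    rw [isCoprime_comm]; exact hirr'.coprime_iff_not_dvd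
  obtain ⟨a, b, k, m, ha, hb, hmk, hab⟩ := h
  have hab' : oL O (f.map (iV hcc)) ∣ oL O (a.map (iV hcc)) * α.map ι *
      oL O ((unf (V) (w) f γ).map (iV hcc)) ^ k -
      oL O (b.map (iV hcc)) *
      oL O ((unf (V) (w) f γ).map (iV hcc)) ^ m := by
    have h1 := Polynomial.map_dvd ι hab
    rw [oL_ext, oL_ext, oL_ext, oL_ext]
    simp only [oL, Polynomial.map_sub, Polynomial.map_mul, Polynomial.map_pow] at h1 ⊢
    exact h1
  have ha' := cop_ext hcc ha hd'
  have hb' := cop_ext hcc hb hd'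
  obtain ⟨ρ, hρ⟩ := hdvd
  obtain ⟨r, hr⟩ := H20.exists_lift (O := V) ρ
  have hfL : rd O (f.map (iV hcc)) = rd O (γ.map (iV hcc)) * rd O (r.map (iV hcc)) := by
    rw [rd_ext, rd_ext, rd_ext, hρ, hr, Polynomial.map_mul]
  by_cases hc : rd (V) γ ^ 2 ∣ rd (V) f
  · -- the uniformizers are `γ` and `γ'`
    have hu : unf (V) (w) f γ = γ := by unfold unf; rw [if_pos hc]
    have hc' : rd O γ' ^ 2 ∣ rd O (f.map (iV hcc)) := by
      refine (pow_dvd_pow_of_dvd hd' 2).trans ?_
      rw [rd_ext, rd_ext, ← Polynomial.map_pow]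
      exact Polynomial.map_dvd _ hc
    have hu' : unf O (iV hcc w) (f.map (iV hcc)) γ' = γ' := by
      unfold unf; rw [if_pos hc']
    rw [hu] at hab'
    -- `f = γ^2 a0 + P β`
    obtain ⟨σ, hσ⟩ := hc
    obtain ⟨a0, ha0⟩ := H20.exists_lift (O := V) σ
    obtain ⟨β, hβ⟩ := W2.rd_zero hV (ϖ := w) hw (f - γ ^ 2 * a0) (by
      simp only [rd, Polynomial.map_sub, Polynomial.map_mul, Polynomial.map_pow] at hσ ha0 ⊢
      rw [hσ, ha0, sub_self])
    have hβc : IsCoprime (rd (V) β) (rd (V) γ) := by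
      refine (hirr.coprime_iff_not_dvd.2 ?_).symm
      rintro ⟨τ, hτ⟩
      obtain ⟨b2, hb2⟩ := H20.exists_lift (O := V) τ
      obtain ⟨c2, hc2⟩ := W2.rd_zero hV (ϖ := w) hw (β - γ * b2) (by
        simp only [rd, Polynomial.map_sub, Polynomial.map_mul] at hτ hb2 ⊢
        rw [hτ, hb2, sub_self])
      apply hns
      refine ⟨a0, b2, c2, ?_⟩
      have e1 : f = γ ^ 2 * a0 + C (w) * β := by rw [← hβ]; ring
      have e2 : β = γ * b2 + C (w) * c2 := by rw [← hc2]; ring
      rw [C_pow]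
      rw [e1]
      conv_lhs => rw [e2]
      ring
    have hβ' := cop_ext hcc hβc hd'
    -- `γ = γ' δ + P ε`
    obtain ⟨δ0, hδ0⟩ := hd'
    obtain ⟨δ, hδ⟩ := H20.exists_lift (O := O) δ0
    obtain ⟨ε, hε⟩ := H20.rd_zero hl (ϖ := iV hcc w) (iV_loc hcc w hw)
      (γ.map (iV hcc) - γ' * δ) (by
      simp only [rd, Polynomial.map_sub, Polynomial.map_mul] at hδ0 hδ ⊢
      rw [hδ0, hδ, sub_self])
    have hδc : IsCoprime (rd O δ) (rd O γ') := by
      rw [hcop']
      rintro ⟨z, hz⟩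
      apply hnsq
      rw [hδ0, ← hδ, hz]
      exact ⟨z, by ring⟩
    set G := γ.map (iV hcc) with hG
    set A := a0.map (iV hcc) with hA
    set B := β.map (iV hcc) with hB
    set fL := f.map (iV hcc) with hfLd
    have e1 : fL = G ^ 2 * A + C (iV hcc w) * B := by
      have : f = γ ^ 2 * a0 + C (w) * β := by rw [← hβ]; ring
      rw [hfLd, this]
      simp only [Polynomial.map_add, Polynomial.map_mul, Polynomial.map_pow, Polynomial.map_C,
        hG, hA, hB]
    have e2 : G = γ' * δ + C (iV hcc w) * ε := by rw [← hε]; ring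
    -- `G (B + G A ε) = γ' (B δ) + f ε`
    have e3 : G * (B + G * A * ε) = γ' * (B * δ) + fL * ε := by
      have : G * B = γ' * δ * B + C (iV hcc w) * ε * B := by
        conv_lhs => rw [e2]
        ring
      rw [e1]
      linear_combination this
    set A1 := B + G * A * ε with hA1
    set B1 := B * δ with hB1
    have hA1c : IsCoprime (rd O A1) (rd O γ') := by
      rw [hcop']
      intro hd
      rw [hcop'] at hβ'
      apply hβ'
      have h1 : rd O B = rd O A1 - rd O G * (rd O A * rd O ε) := by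
        rw [hA1]
        simp only [rd, Polynomial.map_add, Polynomial.map_mul]
        ring
      rw [h1]
      refine dvd_sub hd (Dvd.dvd.mul_right ?_ _)
      rw [hδ0]
      exact dvd_mul_right _ _
    have hB1c : IsCoprime (rd O B1) (rd O γ') := by
      rw [hB1, EVZ.rd_mul]
      exact hβ'.mul_left hδc
    refine ⟨a.map (iV hcc) * B1 ^ k * A1 ^ m, b.map (iV hcc) * B1 ^ m * A1 ^ k, k, m,
      ?_, ?_, hmk, ?_⟩
    · rw [EVZ.rd_mul, EVZ.rd_mul, EVZ.rd_pow, EVZ.rd_pow]
      exact (ha'.mul_left hB1c.pow_left).mul_left hA1c.pow_left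
    · rw [EVZ.rd_mul, EVZ.rd_mul, EVZ.rd_pow, EVZ.rd_pow]
      exact (hb'.mul_left hB1c.pow_left).mul_left hA1c.pow_left
    · rw [hu']
      -- in the quotient ring
      have q1 : AdjoinRoot.mk (oL O fL) (oL O G) * AdjoinRoot.mk (oL O fL) (oL O A1) =
          AdjoinRoot.mk (oL O fL) (oL O γ') * AdjoinRoot.mk (oL O fL) (oL O B1) := by
        rw [← map_mul, ← map_mul, AdjoinRoot.mk_eq_mk]
        refine ⟨oL O ε, ?_⟩
        have := congrArg (oL O) e3
        simp only [oL, Polynomial.map_add, Polynomial.map_mul] at this ⊢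
        linear_combination this
      have q2 := AdjoinRoot.mk_eq_mk.2 hab'
      rw [← AdjoinRoot.mk_eq_mk]
      simp only [oL, Polynomial.map_mul, Polynomial.map_pow, map_mul, map_pow] at q1 q2 ⊢
      have q3 := congrArg (fun z => z ^ k) q1
      have q4 := congrArg (fun z => z ^ m) q1
      simp only [mul_pow] at q3 q4
      linear_combination (AdjoinRoot.mk _ (Polynomial.map (algebraMap O L) A1)) ^ k *
        (AdjoinRoot.mk _ (Polynomial.map (algebraMap O L) A1)) ^ m * q2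
        - AdjoinRoot.mk _ (Polynomial.map (algebraMap O L) (a.map (iV hcc))) *
          AdjoinRoot.mk _ (α.map ι) *
          (AdjoinRoot.mk _ (Polynomial.map (algebraMap O L) A1)) ^ m * q3
        + AdjoinRoot.mk _ (Polynomial.map (algebraMap O L) (b.map (iV hcc))) *
          (AdjoinRoot.mk _ (Polynomial.map (algebraMap O L) A1)) ^ k * q4
  · -- the uniformizers are `P` and `P`
    have hu : unf (V) (w) f γ = C (w) := by unfold unf; rw [if_neg hc]
    have hrc : IsCoprime (rd (V) r) (rd (V) γ) := by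
      refine (hirr.coprime_iff_not_dvd.2 ?_).symm
      rintro ⟨z, hz⟩
      exact hc ⟨z, by rw [hρ, ← hr, hz]; ring⟩
    have hr' := cop_ext hcc hrc hd'
    have hc' : ¬ rd O γ' ^ 2 ∣ rd O (f.map (iV hcc)) := by
      intro h
      rw [hfL] at h
      exact hnsq (IsCoprime.dvd_of_dvd_mul_right (hr'.symm.pow_left (m := 2)) h)
    have hu' : unf O (iV hcc w) (f.map (iV hcc)) γ' =
        C (iV hcc w) := by
      unfold unf; rw [if_neg hc']
    rw [hu, Polynomial.map_C] at hab'
    refine ⟨a.map (iV hcc), b.map (iV hcc), k, m, ha', hb', hmk, ?_⟩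
    rw [hu']
    exact hab'

end Pool.T1.Zudb94
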