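import Pool.Agent.H94.T1.ZUDBa

/-!
# T1, row ZUDB, part 2: the local ring of `R` at `P`
(the port of H81/TOW/K1, K2 and of H43/T1/INOK)
-/

set_option autoImplicit false
set_option linter.unusedSectionVars false

namespace Pool.T1.Zudb94

open Polynomial Pool.HYP Pool.AVS Pool.TOW Pool.TOW.UD IsDedekindDomain

/-- `V` is the local ring of `R` at `P`, with uniformizer `ϖ`. -/
structure LV {R : Type} [CommRing R] [IsDomain R] {K : Type} [Field K] [Algebra R K]
    (P : HeightOneSpectrum R) (ϖ : R) (V : ValuationSubring K) : Prop where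
  loc : LocW K V (algebraMap R K ϖ)
  int : ∀ a : R, algebraMap R K a ∈ V
  mem : ∀ a : R, algebraMap R K a / algebraMap R K ϖ ∈ V ↔ a ∈ P.asIdeal

variable {R : Type} [CommRing R] [IsDedekindDomain R] {K : Type} [Field K] [Algebra R K]
  [IsFractionRing R K] {P : HeightOneSpectrum R} {ϖ : R} {V : ValuationSubring K}

theorem pi_mem (h : LV P ϖ V) : ϖ ∈ P.asIdeal := by
  rw [← h.mem, div_self h.loc.pi_ne]
  exact one_mem V

theorem unit_of (h : LV P ϖ V) {m : R} (hm : m ∉ P.asIdeal) :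
    algebraMap R K m ≠ 0 ∧ (algebraMap R K m)⁻¹ ∈ V := by
  have h0 : algebraMap R K m ≠ 0 := by
    intro e
    apply hm
    rw [← h.mem, e, zero_div]
    exact zero_mem V
  refine ⟨h0, ?_⟩
  by_contra hn
  exact hm ((h.mem m).1 ((h.loc.unif _ (h.int m) h0).1 hn))

theorem sq_mem (h : LV P ϖ V) {z : R} (hz : z ∈ P.asIdeal ^ 2) :
    algebraMap R K z / (algebraMap R K ϖ) ^ 2 ∈ V := by
  rw [pow_two] at hz
  refine Submodule.mul_induction_on hz ?_ ?_
  · intro a ha b hb
    have e : algebraMap R K (a * b) / (algebraMap R K ϖ) ^ 2 =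
        (algebraMap R K a / algebraMap R K ϖ) * (algebraMap R K b / algebraMap R K ϖ) := by
      rw [map_mul]
      have := h.loc.pi_ne
      field_simp
    rw [e]
    exact mul_mem ((h.mem a).2 ha) ((h.mem b).2 hb)
  · intro a b ha hb
    rw [map_add, add_div]
    exact add_mem ha hb

theorem pi_nsq (h : LV P ϖ V) : ϖ ∉ P.asIdeal ^ 2 := by
  intro hz
  have h1 := sq_mem h hz
  have h2 : (1 : R) ∈ P.asIdeal := by
    rw [← h.mem]
    have e : algebraMap R K 1 / algebraMap R K ϖ =
        algebraMap R K ϖ / (algebraMap R K ϖ) ^ 2 := by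
      rw [map_one]
      have := h.loc.pi_ne
      field_simp
    rw [e]
    exact h1
  exact P.isPrime.ne_top ((Ideal.eq_top_iff_one _).2 h2)

/-- Division by the uniformizer. -/
theorem divq (h : LV P ϖ V) : ∃ q : R, q ∉ P.asIdeal ∧
    ∀ b ∈ P.asIdeal, ∃ b' : R, b * q = ϖ * b' := by
  have h1 : P.asIdeal ∣ Ideal.span {ϖ} := by
    rw [Ideal.dvd_span_singleton]
    exact pi_mem h
  obtain ⟨Q, hQ⟩ := h1
  have h2 : ¬ Q ≤ P.asIdeal := by
    intro hle
    apply pi_nsq h
    have h3 : ϖ ∈ P.asIdeal * Q := by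
      rw [← hQ]
      exact Ideal.mem_span_singleton_self ϖ
    rw [pow_two]
    exact (Ideal.mul_mono_right hle) h3
  obtain ⟨q, hq, hqP⟩ := SetLike.not_le_iff_exists.1 h2
  refine ⟨q, hqP, fun b hb => ?_⟩
  have h3 : b * q ∈ Ideal.span {ϖ} := by
    rw [hQ]
    exact Ideal.mul_mem_mul hb hq
  obtain ⟨b', hb'⟩ := Ideal.mem_span_singleton.1 h3
  exact ⟨b', hb'⟩

theorem frac (h : LV P ϖ V) {x : K} (hx : x ∈ V) :
    ∃ b a : R, b ∉ P.asIdeal ∧ algebraMap R K b * x = algebraMap R K a := by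
  obtain ⟨q, hqP, hq⟩ := divq h
  obtain ⟨hq0, hqi⟩ := unit_of h hqP
  have hpi := h.loc.pi_ne
  have key : ∀ (k : ℕ) (a b : R), b ≠ 0 → algebraMap R K b * x = algebraMap R K a →
      (algebraMap R K b / algebraMap R K ϖ ^ k)⁻¹ ∈ V →
      ∃ b a : R, b ∉ P.asIdeal ∧ algebraMap R K b * x = algebraMap R K a := by
    intro k
    induction k with
    | zero =>
      intro a b hb0 hab hk
      refine ⟨b, a, fun hb => ?_, hab⟩
      rw [pow_zero, div_one] at hk
      have hb0' : algebraMap R K b ≠ 0 := by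
        intro e
        apply hb0
        apply IsFractionRing.injective R K
        rw [map_zero]
        exact e
      exact ((h.loc.unif _ (h.int b) hb0').2 ((h.mem b).2 hb)) hk
    | succ k ih =>
      intro a b hb0 hab hk
      by_cases hb : b ∈ P.asIdeal
      · have ha : a ∈ P.asIdeal := by
          rw [← h.mem, ← hab, mul_comm, mul_div_assoc]
          exact mul_mem hx ((h.mem b).2 hb)
        obtain ⟨b', hb'⟩ := hq b hb
        obtain ⟨a', ha'⟩ := hq a ha
        have hb'0 : b' ≠ 0 := by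
          rintro rfl
          rw [mul_zero] at hb'
          rcases mul_eq_zero.1 hb' with e | e
          · exact hb0 e
          · apply hqP
            rw [e]
            exact P.asIdeal.zero_mem
        refine ih a' b' hb'0 ?_ ?_
        · apply mul_left_cancel₀ hpi
          have e1 := congrArg (algebraMap R K) hb'
          have e2 := congrArg (algebraMap R K) ha'
          rw [map_mul, map_mul] at e1 e2
          rw [← mul_assoc, ← e1, ← e2, ← hab]
          ring
        · have e1 := congrArg (fun z => algebraMap R K z) hb'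
          simp only [map_mul] at e1
          have e : (algebraMap R K b' / algebraMap R K ϖ ^ k)⁻¹ =
              (algebraMap R K b / algebraMap R K ϖ ^ (k + 1))⁻¹ *
                (algebraMap R K q)⁻¹ := by
            rw [← mul_inv]
            congr 1
            rw [pow_succ]
            field_simp
            rw [mul_comm] at e1
            linear_combination -e1
          rw [e]
          exact mul_mem hk hqi
      · exact ⟨b, a, hb, hab⟩
  obtain ⟨a, b, hb, hx'⟩ := IsFractionRing.div_surjective (A := R) x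
  have hb0 : b ≠ 0 := nonZeroDivisors.ne_zero hb
  have hbK : algebraMap R K b ≠ 0 := by
    intro e
    exact hb0 ((IsFractionRing.injective R K) (by rw [e, map_zero]))
  obtain ⟨n, h1, h2⟩ := h.loc.arch _ hbK
  have hn : (algebraMap R K b / algebraMap R K ϖ ^ (n.toNat))⁻¹ ∈ V := by
    by_cases hn : 0 ≤ n
    · obtain ⟨k, rfl⟩ := Int.eq_ofNat_of_zero_le hn
      simpa using h2
    · have e0 : n.toNat = 0 := by omega
      rw [e0, pow_zero, div_one]
      obtain ⟨k, hk⟩ : ∃ k : ℕ, n = -(k : ℤ) := ⟨(-n).toNat, by omega⟩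
      have e : (algebraMap R K b)⁻¹ =
          (algebraMap R K b / algebraMap R K ϖ ^ n)⁻¹ * algebraMap R K ϖ ^ k := by
        rw [hk, _root_.zpow_neg, zpow_natCast]
        field_simp
      rw [e]
      exact mul_mem h2 (pow_mem h.loc.pi_mem k)
  refine key n.toNat a b hb0 ?_ hn
  rw [← hx']
  field_simp

theorem inv_mod {b : R} (hb : b ∉ P.asIdeal) : ∃ c : R, c * b - 1 ∈ P.asIdeal := by
  obtain ⟨c, hc⟩ := P.isMaximal.exists_inv hb
  obtain ⟨i, hi, e⟩ := hc
  refine ⟨c, ?_⟩
  have : c * b - 1 = -i := by rw [← e]; ring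
  rw [this]
  exact P.asIdeal.neg_mem hi

/-- The embedding of `R`. -/
noncomputable def jR (h : LV P ϖ V) : R →+* V where
  toFun a := ⟨algebraMap R K a, h.int a⟩
  map_one' := Subtype.ext (map_one _)
  map_mul' a b := Subtype.ext (map_mul _ a b)
  map_zero' := Subtype.ext (map_zero _)
  map_add' a b := Subtype.ext (map_add _ a b)

/-- The reduction. -/
noncomputable def rR (h : LV P ϖ V) : R →+* IsLocalRing.ResidueField V :=
  (IsLocalRing.residue V).comp (jR h)

theorem rR_zero (h : LV P ϖ V) (a : R) : rR h a = 0 ↔ a ∈ P.asIdeal := by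
  rw [← h.mem a]
  show IsLocalRing.residue V (jR h a) = 0 ↔ _
  rw [W.residue_zero_iff h.loc (jR h ϖ) rfl]
  constructor
  · rintro ⟨y, hy⟩
    have h2 : algebraMap R K a = algebraMap R K ϖ * (y : K) := congrArg Subtype.val hy
    rw [h2, mul_div_cancel_left₀ _ h.loc.pi_ne]
    exact y.2
  · intro ha
    exact ⟨⟨_, ha⟩, Subtype.ext (mul_div_cancel₀ _ h.loc.pi_ne).symm⟩

theorem rR_surj (h : LV P ϖ V) : Function.Surjective (rR h) := by
  intro y
  obtain ⟨z, rfl⟩ := IsLocalRing.residue_surjective y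
  obtain ⟨b, a, hb, hab⟩ := frac h z.2
  obtain ⟨c, hc⟩ := inv_mod hb
  refine ⟨a * c, ?_⟩
  have h2 : jR h b * z = jR h a := Subtype.ext hab
  have h3 : rR h c * rR h b = 1 := by
    have := (rR_zero h _).2 hc
    rw [map_sub, map_mul, map_one, sub_eq_zero] at this
    exact this
  have h4 : rR h b * IsLocalRing.residue V z = rR h a := by
    have := congrArg (IsLocalRing.residue V) h2
    rw [map_mul] at this
    exact this
  rw [map_mul, ← h4]
  linear_combination (IsLocalRing.residue V z) * h3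

theorem rR_poly_zero (h : LV P ϖ V) (p : R[X]) : p.map (rR h) = 0 ↔ Zer P.asIdeal p := by
  constructor
  · intro hp i
    have := congrArg (fun q => q.coeff i) hp
    rw [coeff_map, coeff_zero] at this
    exact (rR_zero h _).1 this
  · intro hp
    ext i
    rw [coeff_map, coeff_zero, (rR_zero h _).2 (hp i)]

/-- The isomorphism with the residue field. -/
noncomputable def eR (h : LV P ϖ V) : R ⧸ P.asIdeal ≃+* IsLocalRing.ResidueField V :=
  (Ideal.quotEquivOfEq (show P.asIdeal = RingHom.ker (rR h) by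
    ext p
    rw [RingHom.mem_ker, rR_zero])).trans
    (RingHom.quotientKerEquivOfSurjective (rR_surj h))

theorem eR_map (h : LV P ϖ V) (γ : R[X]) :
    γ.map (rR h) = Polynomial.mapEquiv (eR h) (md P.asIdeal γ) := by
  rw [Polynomial.mapEquiv_apply, md, Polynomial.map_map]
  rfl

theorem irr_iff (h : LV P ϖ V) (γ : R[X]) :
    Irreducible (md P.asIdeal γ) ↔ Irreducible (γ.map (rR h)) := by
  rw [eR_map, MulEquiv.irreducible_iff]

theorem cop_iff (h : LV P ϖ V) (p f : R[X]) :
    IsCoprime (md P.asIdeal p) (md P.asIdeal f) ↔ IsCoprime (p.map (rR h)) (f.map (rR h)) := by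
  rw [eR_map, eR_map]
  constructor
  · intro hc
    exact hc.map ((Polynomial.mapEquiv (eR h)).toRingHom)
  · intro hc
    have h2 : IsCoprime ((Polynomial.mapEquiv (eR h)).symm (Polynomial.mapEquiv (eR h)
        (md P.asIdeal p))) ((Polynomial.mapEquiv (eR h)).symm (Polynomial.mapEquiv (eR h)
        (md P.asIdeal f))) := hc.map ((Polynomial.mapEquiv (eR h)).symm.toRingHom)
    rwa [RingEquiv.symm_apply_apply, RingEquiv.symm_apply_apply] at h2

/-- `f` over the local ring. -/
noncomputable abbrev fV (h : LV P ϖ V) (f : R[X]) : V[X] := f.map (jR h)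

theorem oL_fV (h : LV P ϖ V) (f : R[X]) : oL V (fV h f) = fk K f := by
  rw [oL, fV, Polynomial.map_map]
  rfl

theorem rd_fV (h : LV P ϖ V) (f : R[X]) : rd V (fV h f) = f.map (rR h) := by
  rw [rd, fV, Polynomial.map_map]
  rfl

theorem oL_inj {L : Type} [Field L] {O : ValuationSubring L} {p q : O[X]}
    (h : oL O p = oL O q) : p = q :=
  Polynomial.map_injective (algebraMap O L) Subtype.val_injective h

theorem lift_rR (h : LV P ϖ V) (q : (IsLocalRing.ResidueField V)[X]) :
    ∃ p : R[X], p.map (rR h) = q := Polynomial.map_surjective _ (rR_surj h) q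

theorem lift_rR_monic (h : LV P ϖ V) (q : (IsLocalRing.ResidueField V)[X])
    (hq : q.Monic) : ∃ p : R[X], p.map (rR h) = q ∧ p.Monic := by
  have h1 : q ∈ lifts (rR h) := by
    obtain ⟨p, hp⟩ := lift_rR h q
    exact ⟨p, hp⟩
  obtain ⟨p, hp, -, hm⟩ := lifts_and_degree_eq_and_monic h1 hq
  exact ⟨p, hp, hm⟩

/-- common denominators. -/
theorem den (h : LV P ϖ V) (p : V[X]) :
    ∃ (D : R) (q : R[X]), D ∉ P.asIdeal ∧ C (jR h D) * p = fV h q := by
  induction p using Polynomial.induction_on' with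
  | add p q hp hq =>
    obtain ⟨D, p', hD, hp'⟩ := hp
    obtain ⟨E, q', hE, hq'⟩ := hq
    refine ⟨D * E, C E * p' + C D * q',
      fun hh => (P.isPrime.mem_or_mem hh).elim hD hE, ?_⟩
    simp only [fV, Polynomial.map_add, Polynomial.map_mul, Polynomial.map_C] at hp' hq' ⊢
    rw [← hp', ← hq', map_mul, C_mul]
    ring
  | monomial n a =>
    obtain ⟨b, c, hb, hab⟩ := frac h a.2
    refine ⟨b, monomial n c, hb, ?_⟩
    have h1 : jR h b * a = jR h c := Subtype.ext hab
    rw [fV, Polynomial.map_monomial, C_mul_monomial, h1]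

theorem cop_unit {A : Type} [CommRing A] {a b : A} (h : IsUnit a) : IsCoprime a b := by
  obtain ⟨v, hv⟩ := h.exists_left_inv
  exact ⟨v, 0, by rw [hv, zero_mul, add_zero]⟩

theorem us_of_usl (h : LV P ϖ V) (f : R[X]) (α : K[X]) (hu : USL V (fV h f) α) :
    US P.asIdeal f α := by
  obtain ⟨s, p, hs, hd, hc⟩ := hu
  obtain ⟨D, q, hD, hq⟩ := den h p
  have hD0 : algebraMap R K D ≠ 0 := (unit_of h hD).1
  rw [oL_fV] at hs hd
  refine ⟨C (algebraMap R K D) * s, C D * q, ?_, ?_, ?_⟩
  · refine IsCoprime.mul_left ?_ hs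
    exact cop_unit (isUnit_C.2 (isUnit_iff_ne_zero.2 hD0))
  · have h1 : fk K (C D * q) = C (algebraMap R K D) * (C (algebraMap R K D) * oL V p) := by
      have h2 := congrArg (oL V) hq
      rw [oL_fV] at h2
      rw [fk, Polynomial.map_mul, Polynomial.map_C, ← fk, ← h2]
      simp only [oL, Polynomial.map_mul, Polynomial.map_C]
      rfl
    rw [h1]
    have h3 : α * (C (algebraMap R K D) * s) ^ 2 -
        C (algebraMap R K D) * (C (algebraMap R K D) * oL V p) =
        C (algebraMap R K D) ^ 2 * (α * s ^ 2 - oL V p) := by ring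
    rw [h3]
    exact dvd_mul_of_dvd_right hd _
  · rw [cop_iff h]
    have h2 := congrArg (rd V) hq
    rw [rd_fV] at h2
    rw [Polynomial.map_mul, ← h2, ← rd_fV h f]
    have hDu : IsUnit (C (rR h D)) :=
      isUnit_C.2 (isUnit_iff_ne_zero.2 (fun h' => hD ((rR_zero h D).1 h')))
    rw [Polynomial.map_C]
    refine IsCoprime.mul_left (cop_unit hDu) ?_
    rw [rd, Polynomial.map_mul, Polynomial.map_C]
    exact IsCoprime.mul_left (cop_unit hDu) hc

theorem w_ne (h : LV P ϖ V) : (C (jR h ϖ) : V[X]) ≠ 0 := by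
  intro h0
  have h1 : jR h ϖ = 0 := by simpa using h0
  exact h.loc.pi_ne (congrArg Subtype.val h1)

theorem rd_w (h : LV P ϖ V) : rd V (C (jR h ϖ)) = 0 :=
  (W.rd_zero_iff h.loc (jR h ϖ) rfl _).2 dvd_rfl

/-- An element of `R` divisible by `ϖ ^ 2` in `V` is in `P ^ 2`. -/
theorem mem_sq (h : LV P ϖ V) {a : R} (ha : algebraMap R K a / algebraMap R K ϖ ^ 2 ∈ V) :
    a ∈ P.asIdeal ^ 2 := by
  have hpi := h.loc.pi_ne
  obtain ⟨q, hqP, hq⟩ := divq h
  have h1 : a ∈ P.asIdeal := by
    rw [← h.mem]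
    have e : algebraMap R K a / algebraMap R K ϖ =
        algebraMap R K a / algebraMap R K ϖ ^ 2 * algebraMap R K ϖ := by
      field_simp
    rw [e]
    exact mul_mem ha h.loc.pi_mem
  obtain ⟨b, hb⟩ := hq a h1
  have h2 : b ∈ P.asIdeal := by
    rw [← h.mem]
    have e1 := congrArg (algebraMap R K) hb
    rw [map_mul, map_mul] at e1
    have e : algebraMap R K b / algebraMap R K ϖ =
        algebraMap R K a / algebraMap R K ϖ ^ 2 * algebraMap R K q := by
      field_simp
      linear_combination -e1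
    rw [e]
    exact mul_mem ha (h.int q)
  have h3 : a * q ∈ P.asIdeal ^ 2 := by
    rw [hb, pow_two]
    exact Ideal.mul_mem_mul (pi_mem h) h2
  obtain ⟨c, hc⟩ := inv_mod hqP
  have h4 : a * (c * q - 1) ∈ P.asIdeal ^ 2 := by
    rw [pow_two]
    exact Ideal.mul_mem_mul h1 hc
  have h5 : a = c * (a * q) - a * (c * q - 1) := by ring
  rw [h5]
  exact Ideal.sub_mem _ (Ideal.mul_mem_left _ _ h3) h4

theorem sing_of_insq (h : LV P ϖ V) (f : R[X]) (γ : V[X]) (hγ : γ.Monic)
    (hirr : Irreducible (rd V γ)) (hin : InSq (jR h ϖ) (fV h f) γ) : Sing P.asIdeal f := by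
  obtain ⟨a, b, c, habc⟩ := hin
  obtain ⟨γ0, hγ0, hγ0m⟩ := lift_rR_monic h (rd V γ) (hγ.map _)
  obtain ⟨a0, ha0⟩ := lift_rR h (rd V a)
  obtain ⟨γ1, hγ1⟩ := W2.rd_zero h.loc (ϖ := jR h ϖ) rfl (γ - fV h γ0) (by
    rw [rd, Polynomial.map_sub, ← rd, ← rd, rd_fV, hγ0, sub_self])
  obtain ⟨a1, ha1⟩ := W2.rd_zero h.loc (ϖ := jR h ϖ) rfl (a - fV h a0) (by
    rw [rd, Polynomial.map_sub, ← rd, ← rd, rd_fV, ha0, sub_self])
  have hw2 : (C (jR h ϖ ^ 2) : V[X]) = C (jR h ϖ) ^ 2 := C_pow
  have hrf : f.map (rR h) = rd V γ ^ 2 * rd V a := by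
    rw [← rd_fV, habc, hw2]
    have := rd_w h
    simp only [rd, Polynomial.map_add, Polynomial.map_mul, Polynomial.map_pow] at this ⊢
    rw [this]
    ring
  -- `e = f - γ0² a0` is zero modulo `P`
  set e : R[X] := f - γ0 ^ 2 * a0 with he
  have heP : Zer P.asIdeal e := (rR_poly_zero h e).1 (by
    rw [he, Polynomial.map_sub, Polynomial.map_mul, Polynomial.map_pow, hrf, hγ0, ha0, sub_self])
  have he1 : fV h e = C (jR h ϖ) * (fV h γ0 * (fV h γ0 * a1 + 2 * γ1 * fV h a0) + γ * b +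
      C (jR h ϖ) * (2 * fV h γ0 * γ1 * a1 + γ1 ^ 2 * fV h a0 +
        C (jR h ϖ) * (γ1 ^ 2 * a1) + c)) := by
    have e0 : fV h e = fV h f - fV h γ0 ^ 2 * fV h a0 := by
      simp only [he, fV, Polynomial.map_sub, Polynomial.map_mul, Polynomial.map_pow]
    rw [e0, habc, hw2]
    have e1 : γ = fV h γ0 + C (jR h ϖ) * γ1 := by rw [← hγ1]; ring
    have e2 : a = fV h a0 + C (jR h ϖ) * a1 := by rw [← ha1]; ring
    have e3 : γ ^ 2 * a = (fV h γ0 + C (jR h ϖ) * γ1) ^ 2 * (fV h a0 + C (jR h ϖ) * a1) := by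
      rw [← e1, ← e2]
    rw [e3]
    ring
  -- multiply by `q`: `e q = ϖ e'`
  obtain ⟨q, hqP, hq⟩ := divq h
  have hcoef : ∀ i, ∃ b' : R, e.coeff i * q = ϖ * b' := fun i => hq _ (heP i)
  choose b' hb' using hcoef
  set e' : R[X] := ∑ i ∈ Finset.range (e.natDegree + 1), monomial i (b' i) with he'
  have he'c : C q * e = C ϖ * e' := by
    ext n
    rw [coeff_C_mul, coeff_C_mul, he', finsetSum_coeff]
    simp only [coeff_monomial]
    by_cases hn : n ∈ Finset.range (e.natDegree + 1)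
    · rw [Finset.sum_eq_single n (fun m _ hm => if_neg hm) (fun h' => absurd hn h'), if_pos rfl,
        ← hb' n, mul_comm]
    · rw [Finset.sum_eq_zero (fun m hm => if_neg (fun (h' : m = n) => hn (h' ▸ hm))), mul_zero,
        coeff_eq_zero_of_natDegree_lt (by rw [Finset.mem_range] at hn; omega), mul_zero]
  have he2 : fV h e' = C (jR h q) * (fV h γ0 * (fV h γ0 * a1 + 2 * γ1 * fV h a0) + γ * b +
      C (jR h ϖ) * (2 * fV h γ0 * γ1 * a1 + γ1 ^ 2 * fV h a0 +
        C (jR h ϖ) * (γ1 ^ 2 * a1) + c)) := by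
    apply mul_left_cancel₀ (w_ne h)
    have h1 := congrArg (fV h) he'c
    simp only [fV, Polynomial.map_mul, Polynomial.map_C] at h1 he1 ⊢
    rw [← h1, he1]
    ring
  have he3 : rd V γ ∣ e'.map (rR h) := by
    rw [← rd_fV, he2]
    have h0 := rd_w h
    have h1 : rd V (fV h γ0) = rd V γ := by rw [rd_fV, hγ0]
    simp only [rd, Polynomial.map_add, Polynomial.map_mul] at h0 h1 ⊢
    rw [h0, h1, zero_mul, add_zero]
    exact dvd_mul_of_dvd_right (dvd_add (dvd_mul_right _ _) (dvd_mul_right _ _)) _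
  obtain ⟨r, hr⟩ := he3
  obtain ⟨b0, rfl⟩ := lift_rR h r
  have hc0 : Zer P.asIdeal (e' - γ0 * b0) := (rR_poly_zero h _).1 (by
    rw [Polynomial.map_sub, Polynomial.map_mul, hγ0, hr, sub_self])
  -- `c q = 1` modulo `P`
  obtain ⟨t, ht⟩ := inv_mod hqP
  refine ⟨γ0, a0, C (t * ϖ) * b0, e - γ0 * (C (t * ϖ) * b0), hγ0m, ?_, ?_, ?_, ?_⟩
  · rw [irr_iff h, hγ0]
    exact hirr
  · intro i
    rw [coeff_C_mul]
    exact Ideal.mul_mem_right _ _ (Ideal.mul_mem_left _ _ (pi_mem h))
  · intro i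
    have e4 : e - γ0 * (C (t * ϖ) * b0) =
        C (t * ϖ) * (e' - γ0 * b0) - C (t * q - 1) * e := by
      have h1 : C (t * ϖ) * e' = C (t * q) * e := by
        rw [C_mul, C_mul, mul_assoc, mul_assoc, he'c]
      rw [mul_sub, h1, C_sub, C_1]
      ring
    rw [e4, coeff_sub, coeff_C_mul, coeff_C_mul, pow_two]
    refine Ideal.sub_mem _ ?_ (Ideal.mul_mem_mul ht (heP i))
    exact Ideal.mul_mem_mul (Ideal.mul_mem_left _ _ (pi_mem h)) (hc0 i)
  · rw [he]
    ring

end Pool.T1.Zudb94
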